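import Pool.Agent.Helper58.SC.Sound

/-!
# The canonical full schedule: exchange arguments
-/

namespace Helper58SC

open Finset

attribute [local instance] Classical.propDecidable

variable {n : ℕ}

/-- `S` is a schedule in `T` slots each of which contains exactly `m` jobs. -/
def PS (r : Fin n → Fin n → Prop) (m T : ℕ) (S : Fin n → ℕ) : Prop :=
  (∀ v, S v < T) ∧ (∀ t < T, (univ.filter fun v => S v = t).card = m) ∧
    ∀ a b, r a b → S a < S b

/-- The weights: height first, then small numbers first. -/
noncomputable def wt (r : Fin n → Fin n → Prop) (v : Fin n) : ℕ :=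
  (n + 1) * ht r v + (n - v.1)

/-- The potential of a schedule. -/
noncomputable def pot (r : Fin n → Fin n → Prop) (S : Fin n → ℕ) : ℕ :=
  ∑ v, wt r v * S v

theorem wt_lt_of_ht (r : Fin n → Fin n → Prop) {x y : Fin n} (h : ht r x < ht r y) :
    wt r x < wt r y := by
  unfold wt
  have h1 : (n + 1) * (ht r x + 1) ≤ (n + 1) * ht r y := Nat.mul_le_mul_left _ h
  have h2 : (n + 1) * (ht r x + 1) = (n + 1) * ht r x + (n + 1) := by ring
  omega

theorem wt_lt_of_eq (r : Fin n → Fin n → Prop) {x y : Fin n} (h : ht r x = ht r y) (hxy : y < x) :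
    wt r x < wt r y := by
  unfold wt
  rw [h]
  have h1 := x.2
  have h2 : y.1 < x.1 := hxy
  omega

theorem exists_canon (r : Fin n → Fin n → Prop) (m T : ℕ) (h : ∃ S, PS r m T S) :
    ∃ S, PS r m T S ∧ ∀ S', PS r m T S' → pot r S ≤ pot r S' := by
  have hex : ∃ p, ∃ S, PS r m T S ∧ pot r S = p := by
    obtain ⟨S, hS⟩ := h
    exact ⟨pot r S, S, hS, rfl⟩
  obtain ⟨S, hS, hp⟩ := Nat.find_spec hex
  refine ⟨S, hS, ?_⟩
  intro S' hS'
  rw [hp]
  exact Nat.find_min' hex ⟨S', hS', rfl⟩

/-- The exchange lemma: if `y` is available when `x` is processed, is processed later, and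
has larger weight, then a successor of `x` is processed not later than `y`. -/
theorem exchange (r : Fin n → Fin n → Prop) (hr : IsStrictOrder (Fin n) r) (m T : ℕ)
    (S : Fin n → ℕ) (hS : PS r m T S) (hmin : ∀ S', PS r m T S' → pot r S ≤ pot r S')
    (x y : Fin n) (hxy : S x < S y) (hav : ∀ u, r u y → S u < S x) (hw : wt r x < wt r y) :
    ∃ u, r x u ∧ S u ≤ S y := by
  by_contra hcon
  push Not at hcon
  have hne : x ≠ y := by
    intro h
    rw [h] at hxy
    exact lt_irrefl _ hxy
  obtain ⟨h1, h2, h3⟩ := hS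
  let e : Equiv.Perm (Fin n) := Equiv.swap x y
  let S' : Fin n → ℕ := fun v => S (e v)
  have ex : e x = y := Equiv.swap_apply_left x y
  have ey : e y = x := Equiv.swap_apply_right x y
  have eo : ∀ v, v ≠ x → v ≠ y → e v = v := fun v hx hy => Equiv.swap_apply_of_ne_of_ne hx hy
  have hS' : PS r m T S' := by
    refine ⟨fun v => h1 _, ?_, ?_⟩
    · intro t ht
      rw [← h2 t ht]
      apply Finset.card_bij (fun v _ => e v)
      · intro v hv
        simp only [mem_filter, mem_univ, true_and, S'] at hv ⊢
        exact hv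
      · intro a _ b _ hab
        exact e.injective hab
      · intro b hb
        simp only [mem_filter, mem_univ, true_and] at hb
        refine ⟨e.symm b, ?_, by simp⟩
        simp only [mem_filter, mem_univ, true_and, S', Equiv.apply_symm_apply]
        exact hb
    · intro a b hab
      have hab' := h3 a b hab
      have hirr : a ≠ b := by
        intro h
        rw [h] at hab
        exact hr.irrefl _ hab
      change S (e a) < S (e b)
      by_cases hax : a = x
      · subst hax
        rw [ex]
        by_cases hby : b = y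
        · subst hby
          exfalso
          exact lt_irrefl _ (hav a hab)
        · rw [eo b (fun h => hirr h.symm) hby]
          exact hcon b hab
      · by_cases hay : a = y
        · subst hay
          rw [ey]
          by_cases hbx : b = x
          · subst hbx
            exfalso
            omega
          · rw [eo b hbx (fun h => hirr h.symm)]
            omega
        · rw [eo a hax hay]
          by_cases hbx : b = x
          · subst hbx
            rw [ex]
            omega
          · by_cases hby : b = y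
            · subst hby
              rw [ey]
              exact hav a hab
            · rw [eo b hbx hby]
              exact hab'
  have hpot := hmin S' hS'
  have hsum : ∀ F : Fin n → ℕ, ∑ v, wt r v * F v =
      wt r x * F x + (wt r y * F y + ∑ v ∈ (univ.erase x).erase y, wt r v * F v) := by
    intro F
    rw [← Finset.add_sum_erase univ _ (Finset.mem_univ x)]
    congr 1
    rw [← Finset.add_sum_erase (univ.erase x) _
      (Finset.mem_erase.mpr ⟨fun h => hne h.symm, Finset.mem_univ y⟩)]
  have hrest : ∑ v ∈ (univ.erase x).erase y, wt r v * S' v =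
      ∑ v ∈ (univ.erase x).erase y, wt r v * S v := by
    apply Finset.sum_congr rfl
    intro v hv
    simp only [mem_erase, mem_univ, and_true] at hv
    change wt r v * S (e v) = _
    rw [eo v hv.2 hv.1]
  unfold pot at hpot
  rw [hsum S, hsum S', hrest] at hpot
  change _ ≤ wt r x * S (e x) + (wt r y * S (e y) + _) at hpot
  rw [ex, ey] at hpot
  have hlt : wt r x * S y + wt r y * S x < wt r x * S x + wt r y * S y := by
    obtain ⟨a, ha⟩ := Nat.exists_eq_add_of_lt hxy
    obtain ⟨b, hb⟩ := Nat.exists_eq_add_of_lt hw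
    rw [ha, hb]
    have : 0 < (b + 1) * (a + 1) := by positivity
    nlinarith
  omega

/-- The chain lemma. -/
theorem chain_lemma (r : Fin n → Fin n → Prop) (hr : IsStrictOrder (Fin n) r) (m T : ℕ)
    (S : Fin n → ℕ) (hS : PS r m T S) (hmin : ∀ S', PS r m T S' → pot r S ≤ pot r S')
    (y : Fin n) (t : ℕ) (hav : ∀ u, r u y → S u < t) :
    ∀ (d : ℕ) (x : Fin n), t ≤ S x → S x < S y → S y - S x ≤ d → ht r x < ht r y →
      ∃ w, r x w ∧ S w = S y ∧ ht r w < ht r x := by
  intro d
  induction d with
  | zero =>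
    intro x _ h2 h3 _
    omega
  | succ d ih =>
    intro x h1 h2 h3 h4
    obtain ⟨u, hu, hu'⟩ := exchange r hr m T S hS hmin x y h2
      (fun u hu => lt_of_lt_of_le (hav u hu) h1) (wt_lt_of_ht r h4)
    have h5 := ht_lt_of_rel r hr hu
    rcases Nat.lt_or_ge (S u) (S y) with h6 | h6
    · have h7 := hS.2.2 x u hu
      obtain ⟨w, hw, hw', hw''⟩ := ih u (by omega) h6 (by omega) (by omega)
      exact ⟨w, hr.trans _ _ _ hu hw, hw', by omega⟩
    · exact ⟨u, hu, by omega, h5⟩

/-- Twins are processed in the order of their numbers. -/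
theorem twin_order (r : Fin n → Fin n → Prop) (hr : IsStrictOrder (Fin n) r) (m T : ℕ)
    (S : Fin n → ℕ) (hS : PS r m T S) (hmin : ∀ S', PS r m T S' → pot r S ≤ pot r S')
    (a b : Fin n) (htw : Twin r a b) (hab : a ≤ b) : S a ≤ S b := by
  by_contra hcon
  push Not at hcon
  have hlt : a < b := by
    rcases lt_or_eq_of_le hab with h | h
    · exact h
    · rw [h] at hcon
      exact absurd hcon (lt_irrefl _)
  have hav : ∀ u, r u a → S u < S b := fun u hu => hS.2.2 u b ((htw u).1.mp hu)
  obtain ⟨u, hu, hu'⟩ := exchange r hr m T S hS hmin b a hcon hav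
    (wt_lt_of_eq r (ht_twin r htw).symm hlt)
  have := hS.2.2 a u ((htw u).2.mpr hu)
  omega

/-- The jobs of height at least `l` which are available and not processed at time `t`. -/
noncomputable def Asrc (r : Fin n → Fin n → Prop) (S : Fin n → ℕ) (l t : ℕ) : Finset (Fin n) :=
  univ.filter fun v => l ≤ ht r v ∧ t ≤ S v ∧ ∀ u, r u v → S u < t

theorem mem_Asrc (r : Fin n → Fin n → Prop) (S : Fin n → ℕ) (l t : ℕ) (v : Fin n) :
    v ∈ Asrc r S l t ↔ l ≤ ht r v ∧ t ≤ S v ∧ ∀ u, r u v → S u < t := by
  simp [Asrc]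

/-- The first elements of the twin classes of `Asrc`. -/
noncomputable def Rep (r : Fin n → Fin n → Prop) (S : Fin n → ℕ) (l t : ℕ) : Finset (Fin n) :=
  (Asrc r S l t).filter fun v => ∀ u ∈ Asrc r S l t, Twin r u v → v ≤ u

theorem mem_Rep (r : Fin n → Fin n → Prop) (S : Fin n → ℕ) (l t : ℕ) (v : Fin n) :
    v ∈ Rep r S l t ↔ v ∈ Asrc r S l t ∧ ∀ u ∈ Asrc r S l t, Twin r u v → v ≤ u := by
  simp [Rep]

theorem twin_symm (r : Fin n → Fin n → Prop) {a b : Fin n} (h : Twin r a b) : Twin r b a :=
  fun u => ⟨(h u).1.symm, (h u).2.symm⟩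

theorem twin_trans (r : Fin n → Fin n → Prop) {a b c : Fin n} (h : Twin r a b)
    (h' : Twin r b c) : Twin r a c :=
  fun u => ⟨(h u).1.trans (h' u).1, (h u).2.trans (h' u).2⟩

/-- Different elements of `Rep` are not twins. -/
theorem Rep_not_twin (r : Fin n → Fin n → Prop) (S : Fin n → ℕ) (l t : ℕ) {a b : Fin n}
    (ha : a ∈ Rep r S l t) (hb : b ∈ Rep r S l t) (hab : a ≠ b) : ¬ Twin r a b := by
  intro h
  rw [mem_Rep] at ha hb
  exact hab (le_antisymm (ha.2 b hb.1 (twin_symm r h)) (hb.2 a ha.1 h))

/-- The jobs of height at least `l` not processed before `t` are generated by `Rep`. -/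
theorem bef_Rep (r : Fin n → Fin n → Prop) (hr : IsStrictOrder (Fin n) r) (m T : ℕ)
    (S : Fin n → ℕ) (hS : PS r m T S) (hmin : ∀ S', PS r m T S' → pot r S ≤ pot r S')
    (l t : ℕ) (l' : ℕ) (hl : l ≤ l') (v : Fin n) :
    v ∈ bef r l' (Rep r S l t) ↔ l' ≤ ht r v ∧ t ≤ S v := by
  constructor
  · intro h
    rw [mem_bef, mem_up] at h
    obtain ⟨⟨w, hw, x, hx, hxv⟩, h2⟩ := h
    refine ⟨h2, ?_⟩
    rw [mem_Rep, mem_Asrc] at hw
    have hx' : Twin r w x ∧ w ≤ x := by simpa [suf] using hx
    have h3 := twin_order r hr m T S hS hmin w x hx'.1 hx'.2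
    rcases hxv with rfl | hxv
    · omega
    · have := hS.2.2 x v hxv
      omega
  · rintro ⟨h1, h2⟩
    rw [mem_bef, mem_up]
    refine ⟨?_, h1⟩
    -- a minimal unprocessed job below `v`
    obtain ⟨u, hu, hu'⟩ := Finset.exists_min_image
      (univ.filter fun u => (u = v ∨ r u v) ∧ t ≤ S u) S
      ⟨v, by simp [h2]⟩
    simp only [mem_filter, mem_univ, true_and] at hu hu'
    have huA : u ∈ Asrc r S l t := by
      rw [mem_Asrc]
      refine ⟨?_, hu.2, ?_⟩
      · rcases hu.1 with rfl | h
        · omega
        · have := ht_lt_of_rel r hr h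
          omega
      · intro p hp
        by_contra hcon
        push Not at hcon
        have hpv : r p v := by
          rcases hu.1 with rfl | h
          · exact hp
          · exact hr.trans _ _ _ hp h
        have h3 := hu' p ⟨Or.inr hpv, hcon⟩
        have h4 := hS.2.2 p u hp
        omega
    -- the first twin of `u` in `Asrc`
    obtain ⟨w, hw, hw'⟩ := Finset.exists_min_image
      ((Asrc r S l t).filter fun w => Twin r w u) (fun w => w.1)
      ⟨u, by simp [huA, twin_refl]⟩
    simp only [mem_filter] at hw hw'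
    refine ⟨w, ?_, u, ?_, ?_⟩
    · rw [mem_Rep]
      refine ⟨hw.1, ?_⟩
      intro x hx hxw
      exact hw' x ⟨hx, twin_trans r hxw hw.2⟩
    · simp only [suf, mem_filter, mem_univ, true_and]
      exact ⟨hw.2, hw' u ⟨huA, twin_refl r u⟩⟩
    · rcases hu.1 with h | h
      · exact Or.inl h
      · exact Or.inr h

end Helper58SC
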