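import Pool.Agent.Helper58.SC.Canon

/-!
# Completeness of the rule system
-/

namespace Helper58SC

open Finset

attribute [local instance] Classical.propDecidable

variable {n : ℕ}

/-- The jobs of height at least `l` processed at time `t`. -/
noncomputable def Zs (r : Fin n → Fin n → Prop) (S : Fin n → ℕ) (l t : ℕ) : Finset (Fin n) :=
  univ.filter fun v => l ≤ ht r v ∧ S v = t

theorem mem_Zs (r : Fin n → Fin n → Prop) (S : Fin n → ℕ) (l t : ℕ) (v : Fin n) :
    v ∈ Zs r S l t ↔ l ≤ ht r v ∧ S v = t := by
  simp [Zs]

/-- The number of jobs of height `l` processed from time `a` to time `u`. -/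
noncomputable def cnt (r : Fin n → Fin n → Prop) (S : Fin n → ℕ) (l a u : ℕ) : ℕ :=
  (univ.filter fun v => ht r v = l ∧ a ≤ S v ∧ S v ≤ u).card

theorem up_Rep (r : Fin n → Fin n → Prop) (hr : IsStrictOrder (Fin n) r) (m T : ℕ)
    (S : Fin n → ℕ) (hS : PS r m T S) (hmin : ∀ S', PS r m T S' → pot r S ≤ pot r S')
    (l t : ℕ) (v : Fin n) (h : v ∈ up r (Rep r S l t)) : l ≤ ht r v ∨ t < S v := by
  rw [mem_up] at h
  obtain ⟨w, hw, x, hx, hxv⟩ := h
  rw [mem_Rep, mem_Asrc] at hw
  have hx' : Twin r w x ∧ w ≤ x := by simpa [suf] using hx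
  have h3 := twin_order r hr m T S hS hmin w x hx'.1 hx'.2
  rcases hxv with rfl | hxv
  · left
    rw [← ht_twin r hx'.1]
    exact hw.1.1
  · right
    have := hS.2.2 x v hxv
    omega

/-- The slots between `a` and `b` processing only jobs of height at least `l`. -/
theorem compl_A (r : Fin n → Fin n → Prop) (hr : IsStrictOrder (Fin n) r) (m T c : ℕ)
    (S : Fin n → ℕ) (hS : PS r m T S) (hmin : ∀ S', PS r m T S' → pot r S ≤ pot r S')
    (hc : ∀ x, (Rep r S (ht r x + 1) (S x)).card ≤ c) :
    ∀ (d l : ℕ), l + d = n → ∀ (V Z Y : Finset (Fin n)) (a b : ℕ), a ≤ b → b ≤ T →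
      Start m c V Z → Y.card ≤ c →
      (∀ v, v ∈ aft r l V Z ↔ l ≤ ht r v ∧ a ≤ S v) →
      (∀ v, v ∈ bef r l Y ↔ l ≤ ht r v ∧ b ≤ S v) →
      (∀ v, a ≤ S v → S v < b → l ≤ ht r v) →
      Der r m c (Fact.A l V Z Y) := by
  intro d
  induction d with
  | zero =>
    intro l hl V Z Y a b hab hbT hst hY haft hbef hlow
    have : l = n := by omega
    subst this
    exact Der.base V Z Y hst hY
  | succ d ih =>
    intro l hl V Z Y a b hab hbT hst hY haft hbef hlow
    have hn : bef r l Y ⊆ aft r l V Z := by
      intro v hv
      rw [haft]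
      rw [hbef] at hv
      exact ⟨hv.1, by omega⟩
    have haft' : ∀ v, v ∈ aft r (l + 1) V Z ↔ l + 1 ≤ ht r v ∧ a ≤ S v := by
      intro v
      have h1 := haft v
      rw [mem_aft] at h1 ⊢
      constructor
      · rintro ⟨⟨h2, h3⟩, h4⟩
        exact ⟨h3, (h1.mp ⟨⟨h2, by omega⟩, h4⟩).2⟩
      · rintro ⟨h2, h3⟩
        obtain ⟨⟨h4, h5⟩, h6⟩ := h1.mpr ⟨by omega, h3⟩
        exact ⟨⟨h4, h2⟩, h6⟩
    have hbef' : ∀ v, v ∈ bef r (l + 1) Y ↔ l + 1 ≤ ht r v ∧ b ≤ S v := by
      intro v
      have h1 := hbef v
      rw [mem_bef] at h1 ⊢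
      constructor
      · rintro ⟨h2, h3⟩
        exact ⟨h3, (h1.mp ⟨h2, by omega⟩).2⟩
      · rintro ⟨h2, h3⟩
        exact ⟨(h1.mpr ⟨by omega, h3⟩).1, h2⟩
    have hBset : ∀ v, v ∈ Bset r l V Z Y ↔ ht r v = l ∧ a ≤ S v ∧ S v < b := by
      intro v
      unfold Bset
      rw [mem_filter, mem_sdiff, haft, hbef]
      constructor
      · rintro ⟨⟨⟨h1, h2⟩, h3⟩, h4⟩
        refine ⟨h4, h2, ?_⟩
        by_contra h5
        exact h3 ⟨h1, by omega⟩
      · rintro ⟨h1, h2, h3⟩
        exact ⟨⟨⟨h1.ge, h2⟩, fun h => by omega⟩, h1⟩
    -- facts on special slots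
    have hZcard : ∀ u, (Zs r S (l + 1) u).card ≤ m := by
      intro u
      by_cases hu : u < T
      · rw [← hS.2.1 u hu]
        apply Finset.card_le_card
        intro v hv
        rw [mem_Zs] at hv
        simp only [mem_filter, mem_univ, true_and]
        exact hv.2
      · have : Zs r S (l + 1) u = ∅ := by
          ext v
          simp only [mem_Zs, Finset.notMem_empty, iff_false]
          rintro ⟨_, h⟩
          have := hS.1 v
          omega
        rw [this]
        simp
    have hstart : ∀ u, (∃ x, S x = u ∧ ht r x = l) →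
        (Rep r S (l + 1) u).card ≤ c := by
      rintro u ⟨x, hx1, hx2⟩
      have := hc x
      rw [hx1, hx2] at this
      exact this
    -- the number of jobs of height `l` in a slot
    have hslotcard : ∀ u, a ≤ u → u < b →
        (univ.filter fun v => ht r v = l ∧ S v = u).card = m - (Zs r S (l + 1) u).card := by
      intro u hu1 hu2
      have h1 := hS.2.1 u (by omega)
      have h2 : (univ.filter fun v => S v = u) =
          (univ.filter fun v => ht r v = l ∧ S v = u) ∪ Zs r S (l + 1) u := by
        ext v
        simp only [mem_filter, mem_univ, true_and, mem_union, mem_Zs]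
        constructor
        · intro h
          have h3 := hlow v (by omega) (by omega)
          rcases Nat.lt_or_ge l (ht r v) with h4 | h4
          · exact Or.inr ⟨h4, h⟩
          · exact Or.inl ⟨by omega, h⟩
        · rintro (h | h)
          · exact h.2
          · exact h.2
      rw [h2, Finset.card_union_of_disjoint] at h1
      · omega
      · rw [Finset.disjoint_left]
        intro v hv hv'
        simp only [mem_filter, mem_univ, true_and] at hv
        rw [mem_Zs] at hv'
        omega
    have hslot : ∀ u, a ≤ u → u < b → (∃ x, S x = u ∧ ht r x = l) →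
        Slot r m c l V Z Y (Rep r S (l + 1) u) (Zs r S (l + 1) u) (cnt r S l a u) := by
      intro u hu1 hu2 hx
      refine ⟨hY, hstart u hx, hZcard u, ?_, ?_, ?_⟩
      · intro v hv
        rw [mem_Rep, mem_Asrc] at hv
        exact hv.1.1
      · intro z hz
        rw [mem_Zs] at hz
        refine ⟨?_, ?_⟩
        · rw [bef_Rep r hr m T S hS hmin (l + 1) u (l + 1) le_rfl]
          exact ⟨hz.1, hz.2.ge⟩
        · intro w hw hwz
          rw [bef_Rep r hr m T S hS hmin (l + 1) u (l + 1) le_rfl] at hw
          have := hS.2.2 w z hwz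
          omega
      · apply Finset.card_le_card
        intro v hv
        simp only [mem_filter, mem_univ, true_and] at hv
        rw [mem_sdiff, hBset]
        refine ⟨⟨hv.1, hv.2.1, by omega⟩, ?_⟩
        intro h
        rcases up_Rep r hr m T S hS hmin (l + 1) u v h with h1 | h1 <;> omega
    have haftRep : ∀ u v, v ∈ aft r (l + 1) (Rep r S (l + 1) u) (Zs r S (l + 1) u) ↔
        l + 1 ≤ ht r v ∧ u + 1 ≤ S v := by
      intro u v
      have h1 := bef_Rep r hr m T S hS hmin (l + 1) u (l + 1) le_rfl v
      unfold aft
      rw [mem_sdiff, h1, mem_Zs]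
      constructor
      · rintro ⟨⟨h2, h3⟩, h4⟩
        refine ⟨h2, ?_⟩
        by_contra h5
        exact h4 ⟨h2, by omega⟩
      · rintro ⟨h2, h3⟩
        exact ⟨⟨h2, by omega⟩, fun h => by omega⟩
    -- the path facts
    have hpath : ∀ u, a ≤ u → u < b → (∃ x, S x = u ∧ ht r x = l) →
        Der r m c (Fact.P l V Z Y (Rep r S (l + 1) u) (Zs r S (l + 1) u) (cnt r S l a u)) := by
      intro u
      induction u using Nat.strong_induction_on with
      | _ u ihu =>
        intro hu1 hu2 hx
        by_cases hex : ∃ u', a ≤ u' ∧ u' < u ∧ ∃ x, S x = u' ∧ ht r x = l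
        · -- the last special slot before `u`
          obtain ⟨u', hu', hu''⟩ := Finset.exists_max_image
            ((Finset.range u).filter fun u' => a ≤ u' ∧ ∃ x, S x = u' ∧ ht r x = l) id
            (by
              obtain ⟨u', h1, h2, h3⟩ := hex
              exact ⟨u', by simp only [mem_filter, Finset.mem_range]; exact ⟨h2, h1, h3⟩⟩)
          simp only [mem_filter, Finset.mem_range, id] at hu' hu''
          obtain ⟨h1, h2, h3⟩ := hu'
          have hP := ihu u' h1 h2 (by omega) h3
          have hA : Der r m c (Fact.A (l + 1) (Rep r S (l + 1) u') (Zs r S (l + 1) u')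
              (Rep r S (l + 1) u)) := by
            refine ih (l + 1) (by omega) _ _ _ (u' + 1) u (by omega) (by omega)
              (Or.inr ⟨hstart u' h3, hZcard u'⟩) (hstart u hx) (haftRep u')
              (fun v => bef_Rep r hr m T S hS hmin (l + 1) u (l + 1) le_rfl v) ?_
            intro v hv1 hv2
            have h4 := hlow v (by omega) (by omega)
            by_contra h5
            have h6 : ht r v = l := by omega
            have := hu'' (S v) ⟨hv2, by omega, v, rfl, h6⟩
            omega
          have hcnt : cnt r S l a u = cnt r S l a u' + (m - (Zs r S (l + 1) u).card) := by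
            rw [← hslotcard u hu1 hu2]
            unfold cnt
            rw [← Finset.card_union_of_disjoint]
            · congr 1
              ext v
              simp only [mem_filter, mem_univ, true_and, mem_union]
              constructor
              · rintro ⟨e1, e2, e3⟩
                by_cases e4 : S v = u
                · exact Or.inr ⟨e1, e4⟩
                · left
                  refine ⟨e1, e2, ?_⟩
                  exact hu'' (S v) ⟨by omega, e2, v, rfl, e1⟩
              · rintro (⟨e1, e2, e3⟩ | ⟨e1, e2⟩)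
                · exact ⟨e1, e2, by omega⟩
                · exact ⟨e1, by omega, by omega⟩
            · rw [Finset.disjoint_left]
              intro v hv hv'
              simp only [mem_filter, mem_univ, true_and] at hv hv'
              omega
          have hs := hslot u hu1 hu2 hx
          rw [hcnt] at hs ⊢
          exact Der.next l V Z Y _ _ _ _ _ hP hA hs
        · push Not at hex
          have hA : Der r m c (Fact.A (l + 1) V Z (Rep r S (l + 1) u)) := by
            refine ih (l + 1) (by omega) _ _ _ a u hu1 (by omega) hst (hstart u hx) haft'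
              (fun v => bef_Rep r hr m T S hS hmin (l + 1) u (l + 1) le_rfl v) ?_
            intro v hv1 hv2
            have h4 := hlow v (by omega) (by omega)
            have h5 := hex (S v) hv1 hv2 v rfl
            omega
          have hcnt : cnt r S l a u = m - (Zs r S (l + 1) u).card := by
            rw [← hslotcard u hu1 hu2]
            unfold cnt
            congr 1
            ext v
            simp only [mem_filter, mem_univ, true_and]
            constructor
            · rintro ⟨e1, e2, e3⟩
              refine ⟨e1, ?_⟩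
              by_contra e4
              exact hex (S v) e2 (by omega) v rfl e1
            · rintro ⟨e1, e2⟩
              exact ⟨e1, by omega, by omega⟩
          have hs := hslot u hu1 hu2 hx
          rw [hcnt] at hs ⊢
          exact Der.first l V Z Y _ _ hA hs
    by_cases hex : ∃ u, a ≤ u ∧ u < b ∧ ∃ x, S x = u ∧ ht r x = l
    · obtain ⟨u, hu', hu''⟩ := Finset.exists_max_image
        ((Finset.range b).filter fun u => a ≤ u ∧ ∃ x, S x = u ∧ ht r x = l) id
        (by
          obtain ⟨u', h1, h2, h3⟩ := hex
          exact ⟨u', by simp only [mem_filter, Finset.mem_range]; exact ⟨h2, h1, h3⟩⟩)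
      simp only [mem_filter, Finset.mem_range, id] at hu' hu''
      obtain ⟨h1, h2, h3⟩ := hu'
      have hP := hpath u h2 h1 h3
      have hA : Der r m c (Fact.A (l + 1) (Rep r S (l + 1) u) (Zs r S (l + 1) u) Y) := by
        refine ih (l + 1) (by omega) _ _ _ (u + 1) b (by omega) hbT
          (Or.inr ⟨hstart u h3, hZcard u⟩) hY (haftRep u) hbef' ?_
        intro v hv1 hv2
        have h4 := hlow v (by omega) (by omega)
        by_contra h5
        have h6 : ht r v = l := by omega
        have := hu'' (S v) ⟨hv2, by omega, v, rfl, h6⟩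
        omega
      refine Der.fin l V Z Y _ _ _ hP hA hn ?_
      unfold cnt
      congr 1
      ext v
      rw [hBset]
      simp only [mem_filter, mem_univ, true_and]
      constructor
      · rintro ⟨e1, e2, e3⟩
        exact ⟨e1, e2, by omega⟩
      · rintro ⟨e1, e2, e3⟩
        exact ⟨e1, e2, hu'' (S v) ⟨e3, e2, v, rfl, e1⟩⟩
    · push Not at hex
      have hA : Der r m c (Fact.A (l + 1) V Z Y) := by
        refine ih (l + 1) (by omega) _ _ _ a b hab hbT hst hY haft' hbef' ?_
        intro v hv1 hv2
        have h4 := hlow v hv1 hv2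
        have h5 := hex (S v) hv1 hv2 v rfl
        omega
      refine Der.skip l V Z Y hA hn ?_
      rw [Finset.card_eq_zero]
      ext v
      rw [hBset]
      simp only [Finset.notMem_empty, iff_false]
      rintro ⟨e1, e2, e3⟩
      exact hex (S v) e2 e3 v rfl e1

/-- Completeness. -/
theorem compl_root (r : Fin n → Fin n → Prop) (hr : IsStrictOrder (Fin n) r) (m T c : ℕ)
    (S : Fin n → ℕ) (hS : PS r m T S) (hmin : ∀ S', PS r m T S' → pot r S ≤ pot r S')
    (hc : ∀ x, (Rep r S (ht r x + 1) (S x)).card ≤ c) :
    Der r m c (Fact.A 0 univ ∅ ∅) := by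
  refine compl_A r hr m T c S hS hmin hc n 0 (by omega) univ ∅ ∅ 0 T (Nat.zero_le _) le_rfl
    (Or.inl ⟨rfl, rfl⟩) (by simp) ?_ ?_ ?_
  · intro v
    simp only [mem_aft, Nat.zero_le, and_true, Finset.notMem_empty, not_false_eq_true,
      iff_true]
    rw [mem_up]
    exact ⟨v, Finset.mem_univ _, v, by simp [suf, twin_refl], Or.inl rfl⟩
  · intro v
    have := hS.1 v
    simp only [mem_bef, mem_up, Finset.notMem_empty, false_and, exists_false, Nat.zero_le,
      true_and, false_iff, not_le]
    exact this
  · intro v _ _
    exact Nat.zero_le _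

end Helper58SC
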