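import Pool.Agent.Helper58.SC.Sound

/-!
# The number of facts and the number of rounds
-/

namespace Helper58SC

open Finset

attribute [local instance] Classical.propDecidable

variable {n : ℕ}

/-- The sets with at most `c` elements. -/
noncomputable def small (n c : ℕ) : Finset (Finset (Fin n)) :=
  univ.filter fun V => V.card ≤ c

theorem mem_small (n c : ℕ) (V : Finset (Fin n)) : V ∈ small n c ↔ V.card ≤ c := by
  simp [small]

theorem small_card (n c : ℕ) : (small n c).card ≤ (n + 1) ^ c := by
  let F : (Fin c → Option (Fin n)) → Finset (Fin n) :=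
    fun f => univ.filter fun v => ∃ i, f i = some v
  have hsub : small n c ⊆ (univ : Finset (Fin c → Option (Fin n))).image F := by
    intro V hV
    rw [mem_small] at hV
    rw [Finset.mem_image]
    refine ⟨fun i => V.toList[i.1]?, Finset.mem_univ _, ?_⟩
    ext v
    simp only [F, mem_filter, mem_univ, true_and]
    constructor
    · rintro ⟨i, hi⟩
      have := List.mem_of_getElem? hi
      exact Finset.mem_toList.mp this
    · intro hv
      obtain ⟨i, hi, hv'⟩ := List.getElem_of_mem (Finset.mem_toList.mpr hv)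
      rw [Finset.length_toList] at hi
      refine ⟨⟨i, by omega⟩, ?_⟩
      rw [← hv']
      exact List.getElem?_eq_getElem _
  calc (small n c).card ≤ ((univ : Finset (Fin c → Option (Fin n))).image F).card :=
        Finset.card_le_card hsub
    _ ≤ (univ : Finset (Fin c → Option (Fin n))).card := Finset.card_image_le
    _ = (n + 1) ^ c := by simp

/-- The admissible starting points. -/
noncomputable def starts (n m c : ℕ) : Finset (Finset (Fin n) × Finset (Fin n)) :=
  insert (univ, ∅) ((small n c) ×ˢ (small n m))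

theorem mem_starts (m c : ℕ) (V Z : Finset (Fin n)) :
    (V, Z) ∈ starts n m c ↔ Start m c V Z := by
  simp [starts, Start, mem_small]

theorem starts_card (n m c : ℕ) : (starts n m c).card ≤ 2 * (n + 1) ^ (c + m) := by
  have h1 := Finset.card_insert_le ((univ : Finset (Fin n)), (∅ : Finset (Fin n)))
    ((small n c) ×ˢ (small n m))
  rw [Finset.card_product] at h1
  have h2 : (small n c).card * (small n m).card ≤ (n + 1) ^ (c + m) := by
    rw [pow_add]
    exact Nat.mul_le_mul (small_card n c) (small_card n m)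
  have h3 : 0 < (n + 1) ^ (c + m) := by positivity
  unfold starts
  omega

/-- The set of all facts that can occur. -/
noncomputable def legal (n m c : ℕ) : Finset (Fact n) :=
  (((Finset.range (n + 1)) ×ˢ (starts n m c) ×ˢ (small n c)).image
      fun q => Fact.A q.1 q.2.1.1 q.2.1.2 q.2.2) ∪
    (((Finset.range (n + 1)) ×ˢ (starts n m c) ×ˢ (small n c) ×ˢ (small n c) ×ˢ (small n m) ×ˢ
        (Finset.range (n + 1))).image
      fun q => Fact.P q.1 q.2.1.1 q.2.1.2 q.2.2.1 q.2.2.2.1 q.2.2.2.2.1 q.2.2.2.2.2)

theorem legal_card (n m c : ℕ) : (legal n m c).card ≤ size n m c := by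
  unfold legal size
  refine le_trans (Finset.card_union_le _ _) ?_
  have hA := Finset.card_image_le (s := (Finset.range (n + 1)) ×ˢ (starts n m c) ×ˢ (small n c))
    (f := fun q => Fact.A q.1 q.2.1.1 q.2.1.2 q.2.2)
  have hP := Finset.card_image_le (s := (Finset.range (n + 1)) ×ˢ (starts n m c) ×ˢ (small n c) ×ˢ
      (small n c) ×ˢ (small n m) ×ˢ (Finset.range (n + 1)))
    (f := fun q => Fact.P q.1 q.2.1.1 q.2.1.2 q.2.2.1 q.2.2.2.1 q.2.2.2.2.1 q.2.2.2.2.2)
  simp only [Finset.card_product, Finset.card_range] at hA hP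
  have h1 := small_card n c
  have h2 := small_card n m
  have h3 := starts_card n m c
  have hA' : (n + 1) * ((starts n m c).card * (small n c).card) ≤
      (n + 1) * ((2 * (n + 1) ^ (c + m)) * (n + 1) ^ c) :=
    Nat.mul_le_mul le_rfl (Nat.mul_le_mul h3 h1)
  have hP' : (n + 1) * ((starts n m c).card * ((small n c).card * ((small n c).card *
      ((small n m).card * (n + 1))))) ≤
      (n + 1) * ((2 * (n + 1) ^ (c + m)) * ((n + 1) ^ c * ((n + 1) ^ c *
        ((n + 1) ^ m * (n + 1))))) :=
    Nat.mul_le_mul le_rfl (Nat.mul_le_mul h3 (Nat.mul_le_mul h1 (Nat.mul_le_mul h1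
      (Nat.mul_le_mul h2 le_rfl))))
  have e1 : (n + 1) * ((2 * (n + 1) ^ (c + m)) * (n + 1) ^ c) =
      2 * (n + 1) ^ (2 * c + m + 1) := by ring
  have e2 : (n + 1) * ((2 * (n + 1) ^ (c + m)) * ((n + 1) ^ c * ((n + 1) ^ c *
        ((n + 1) ^ m * (n + 1))))) = 2 * (n + 1) ^ (3 * c + 2 * m + 2) := by ring
  have e3 : (n + 1) ^ (2 * c + m + 1) ≤ (n + 1) ^ (3 * c + 2 * m + 2) :=
    Nat.pow_le_pow_right (by omega) (by omega)
  omega

theorem A_mem_legal (m c l : ℕ) (V Z Y : Finset (Fin n)) :
    Fact.A l V Z Y ∈ legal n m c ↔ l ≤ n ∧ Start m c V Z ∧ Y.card ≤ c := by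
  unfold legal
  rw [Finset.mem_union, Finset.mem_image, Finset.mem_image]
  constructor
  · rintro (⟨q, hq, h⟩ | ⟨q, _, h⟩)
    · simp only [Finset.mem_product, Finset.mem_range, mem_small] at hq
      obtain ⟨q1, ⟨q2, q3⟩, q4⟩ := q
      simp only [Fact.A.injEq] at h
      obtain ⟨rfl, rfl, rfl, rfl⟩ := h
      simp only [mem_starts] at hq
      exact ⟨by omega, hq.2.1, hq.2.2⟩
    · simp at h
  · rintro ⟨h1, h2, h3⟩
    left
    refine ⟨(l, (V, Z), Y), ?_, rfl⟩
    simp only [Finset.mem_product, Finset.mem_range, mem_small, mem_starts]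
    exact ⟨by omega, h2, h3⟩

theorem P_mem_legal (m c l : ℕ) (V Z Y V' Z' : Finset (Fin n)) (b : ℕ) :
    Fact.P l V Z Y V' Z' b ∈ legal n m c ↔
      l ≤ n ∧ Start m c V Z ∧ Y.card ≤ c ∧ V'.card ≤ c ∧ Z'.card ≤ m ∧ b ≤ n := by
  unfold legal
  rw [Finset.mem_union, Finset.mem_image, Finset.mem_image]
  constructor
  · rintro (⟨q, _, h⟩ | ⟨q, hq, h⟩)
    · simp at h
    · simp only [Finset.mem_product, Finset.mem_range, mem_small] at hq
      obtain ⟨q1, ⟨q2, q3⟩, q4, q5, q6, q7⟩ := q
      simp only [Fact.P.injEq] at h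
      obtain ⟨rfl, rfl, rfl, rfl, rfl, rfl, rfl⟩ := h
      simp only [mem_starts] at hq
      exact ⟨by omega, hq.2.1, hq.2.2.1, hq.2.2.2.1, hq.2.2.2.2.1, by omega⟩
  · rintro ⟨h1, h2, h3, h4, h5, h6⟩
    right
    refine ⟨(l, (V, Z), Y, V', Z', b), ?_, rfl⟩
    simp only [Finset.mem_product, Finset.mem_range, mem_small, mem_starts]
    exact ⟨by omega, h2, h3, h4, h5, by omega⟩

theorem slot_legal (r : Fin n → Fin n → Prop) (m c l : ℕ) (V Z Y V' Z' : Finset (Fin n)) (b : ℕ)
    (h : Slot r m c l V Z Y V' Z' b) : Y.card ≤ c ∧ V'.card ≤ c ∧ Z'.card ≤ m ∧ b ≤ n := by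
  obtain ⟨h1, h2, h3, _, _, h6⟩ := h
  refine ⟨h1, h2, h3, le_trans h6 ?_⟩
  refine le_trans (Finset.card_le_univ _) ?_
  simp

theorem step_legal (r : Fin n → Fin n → Prop) (m c : ℕ) (X : Set (Fact n))
    (hX : ∀ f ∈ X, f ∈ legal n m c) (f : Fact n) (h : Step r m c X f) : f ∈ legal n m c := by
  cases h with
  | base V Z Y hs hY =>
    rw [A_mem_legal]
    exact ⟨le_rfl, hs, hY⟩
  | skip l V Z Y h _ _ =>
    have := (A_mem_legal m c _ _ _ _).mp (hX _ h)
    rw [A_mem_legal]
    exact ⟨by omega, this.2⟩
  | first l V Z Y V' Z' h hs =>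
    have h1 := (A_mem_legal m c _ _ _ _).mp (hX _ h)
    have h2 := slot_legal r m c l V Z Y V' Z' _ hs
    rw [P_mem_legal]
    exact ⟨by omega, h1.2.1, h2⟩
  | next l V Z Y V₁ Z₁ V' Z' b h h' hs =>
    have h1 := (P_mem_legal m c _ _ _ _ _ _ _).mp (hX _ h)
    have h2 := slot_legal r m c l V Z Y V' Z' _ hs
    rw [P_mem_legal]
    exact ⟨h1.1, h1.2.1, h2⟩
  | fin l V Z Y V₁ Z₁ b h h' _ _ =>
    have h1 := (P_mem_legal m c _ _ _ _ _ _ _).mp (hX _ h)
    rw [A_mem_legal]
    exact ⟨h1.1, h1.2.1, h1.2.2.1⟩

theorem stage_legal (r : Fin n → Fin n → Prop) (m c : ℕ) :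
    ∀ i, ∀ f ∈ stage r m c i, f ∈ legal n m c := by
  intro i
  induction i with
  | zero =>
    intro f hf
    exact absurd hf (by simp [stage])
  | succ i ih =>
    intro f hf
    exact step_legal r m c _ ih f hf

theorem step_mono (r : Fin n → Fin n → Prop) (m c : ℕ) (X X' : Set (Fact n)) (h : X ⊆ X')
    (f : Fact n) (hf : Step r m c X f) : Step r m c X' f := by
  cases hf with
  | base V Z Y hs hY => exact Step.base V Z Y hs hY
  | skip l V Z Y h1 hn hB => exact Step.skip l V Z Y (h h1) hn hB
  | first l V Z Y V' Z' h1 hs => exact Step.first l V Z Y V' Z' (h h1) hs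
  | next l V Z Y V₁ Z₁ V' Z' b h1 h2 hs => exact Step.next l V Z Y V₁ Z₁ V' Z' b (h h1) (h h2) hs
  | fin l V Z Y V₁ Z₁ b h1 h2 hn hb => exact Step.fin l V Z Y V₁ Z₁ b (h h1) (h h2) hn hb

theorem stage_mono (r : Fin n → Fin n → Prop) (m c : ℕ) :
    ∀ i, stage r m c i ⊆ stage r m c (i + 1) := by
  intro i
  induction i with
  | zero => exact Set.empty_subset _
  | succ i ih =>
    intro f hf
    exact step_mono r m c _ _ ih f hf

theorem stage_mono' (r : Fin n → Fin n → Prop) (m c : ℕ) (i j : ℕ) (h : i ≤ j) :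
    stage r m c i ⊆ stage r m c j := by
  induction j with
  | zero =>
    have : i = 0 := by omega
    subst this
    exact subset_rfl
  | succ j ih =>
    rcases Nat.lt_or_ge j i with h1 | h1
    · have : i = j + 1 := by omega
      subst this
      exact subset_rfl
    · exact (ih h1).trans (stage_mono r m c j)

/-- After `size n m c` rounds nothing new is found. -/
theorem stage_stable (r : Fin n → Fin n → Prop) (m c : ℕ) :
    stage r m c (size n m c + 1) ⊆ stage r m c (size n m c) := by
  by_contra hcon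
  have hne : ∀ i ≤ size n m c, ∃ f, f ∈ stage r m c (i + 1) ∧ f ∉ stage r m c i := by
    intro i hi
    by_contra h
    push Not at h
    have hst : ∀ j, i ≤ j → stage r m c j ⊆ stage r m c i := by
      intro j
      induction j with
      | zero =>
        intro hj
        have : i = 0 := by omega
        subst this
        exact subset_rfl
      | succ j ih =>
        intro hj
        rcases Nat.lt_or_ge j i with h1 | h1
        · have : i = j + 1 := by omega
          subst this
          exact subset_rfl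
        · intro f hf
          exact h f (step_mono r m c _ _ (ih h1) f hf)
    exact hcon ((hst _ (by omega)).trans (stage_mono' r m c i _ hi))
  have hcard : ∀ i ≤ size n m c + 1,
      i ≤ ((legal n m c).filter fun f => f ∈ stage r m c i).card := by
    intro i
    induction i with
    | zero =>
      intro _
      exact Nat.zero_le _
    | succ i ih =>
      intro hi
      have h1 := ih (by omega)
      obtain ⟨f, hf1, hf2⟩ := hne i (by omega)
      have h2 : ((legal n m c).filter fun f => f ∈ stage r m c i).card <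
          ((legal n m c).filter fun f => f ∈ stage r m c (i + 1)).card := by
        apply Finset.card_lt_card
        rw [Finset.ssubset_iff_of_subset]
        · refine ⟨f, ?_, ?_⟩
          · rw [mem_filter]
            exact ⟨stage_legal r m c _ f hf1, hf1⟩
          · rw [mem_filter]
            exact fun h => hf2 h.2
        · intro g hg
          rw [mem_filter] at hg ⊢
          exact ⟨hg.1, stage_mono r m c i hg.2⟩
      omega
  have h1 := hcard (size n m c + 1) le_rfl
  have h2 := Finset.card_filter_le (legal n m c) (fun f => f ∈ stage r m c (size n m c + 1))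
  have h3 := legal_card n m c
  omega

/-- Derivability is decided by `size n m c` rounds of forward chaining. -/
theorem der_iff_stage (r : Fin n → Fin n → Prop) (m c : ℕ) (f : Fact n) :
    Der r m c f ↔ f ∈ stage r m c (size n m c) := by
  constructor
  · intro h
    have hclosed : ∀ g, Step r m c (stage r m c (size n m c)) g →
        g ∈ stage r m c (size n m c) := fun g hg => stage_stable r m c hg
    induction h with
    | base V Z Y hs hY => exact hclosed _ (Step.base V Z Y hs hY)
    | skip l V Z Y _ hn hB ih => exact hclosed _ (Step.skip l V Z Y ih hn hB)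
    | first l V Z Y V' Z' _ hs ih => exact hclosed _ (Step.first l V Z Y V' Z' ih hs)
    | next l V Z Y V₁ Z₁ V' Z' b _ _ hs ih ih' =>
      exact hclosed _ (Step.next l V Z Y V₁ Z₁ V' Z' b ih ih' hs)
    | fin l V Z Y V₁ Z₁ b _ _ hn hb ih ih' =>
      exact hclosed _ (Step.fin l V Z Y V₁ Z₁ b ih ih' hn hb)
  · have key : ∀ i, ∀ f ∈ stage r m c i, Der r m c f := by
      intro i
      induction i with
      | zero =>
        intro f hf
        exact absurd hf (by simp [stage])
      | succ i ih =>
        intro f hf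
        cases hf with
        | base V Z Y hs hY => exact Der.base V Z Y hs hY
        | skip l V Z Y h hn hB => exact Der.skip l V Z Y (ih _ h) hn hB
        | first l V Z Y V' Z' h hs => exact Der.first l V Z Y V' Z' (ih _ h) hs
        | next l V Z Y V₁ Z₁ V' Z' b h h' hs =>
          exact Der.next l V Z Y V₁ Z₁ V' Z' b (ih _ h) (ih _ h') hs
        | fin l V Z Y V₁ Z₁ b h h' hn hb =>
          exact Der.fin l V Z Y V₁ Z₁ b (ih _ h) (ih _ h') hn hb
    exact key _ f

end Helper58SC
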