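import Mathlib

/-!
# Unit jobs with precedence constraints on `m` identical machines (MP_17ebaf_lc)

Definitions: the scheduling problem, the forbidden configuration, the rule system.
The jobs are `Fin n`; `r i j` means that job `i` must be finished before job `j` starts.
-/

namespace Helper58SC

open Finset

attribute [local instance] Classical.propDecidable

/-- There is a feasible schedule of the jobs `Fin n` (unit processing times, precedence
constraints `r`) on `m` identical machines with makespan at most `T`. -/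
def Feasible {n : ℕ} (r : Fin n → Fin n → Prop) (m T : ℕ) : Prop :=
  ∃ S : Fin n → ℕ, (∀ t, (univ.filter fun j => S j = t).card ≤ m) ∧
    (∀ i j, r i j → S i + 1 ≤ S j) ∧ ∀ j, S j + 1 ≤ T

/-- Two jobs are twins if they have the same predecessors and the same successors. -/
def Twin {n : ℕ} (r : Fin n → Fin n → Prop) (a b : Fin n) : Prop :=
  ∀ u, (r u a ↔ r u b) ∧ (r a u ↔ r b u)

/-- `Steps r k v`: there is a chain of `k + 1` jobs with bottom `v`. -/
def Steps {n : ℕ} (r : Fin n → Fin n → Prop) : ℕ → Fin n → Prop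
  | 0, _ => True
  | k + 1, v => ∃ u, r v u ∧ Steps r k u

/-- The height of a job: the largest `k` such that there is a chain of `k + 1` jobs with bottom
`v` (so jobs without successors have height `0`). -/
noncomputable def ht {n : ℕ} (r : Fin n → Fin n → Prop) (v : Fin n) : ℕ :=
  Nat.findGreatest (fun k => Steps r k v) n

/-- The forbidden configuration: a chain `W` of `k` jobs and `k` chains `Z 0, ..., Z (k-1)` of
`k` jobs each, such that every job of every `Z p` is incomparable to every job of `W`, the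
bottom jobs `Z p 0` are higher than the jobs of `W`, and the bottom jobs `Z p 0` are pairwise
incomparable and pairwise not twins. -/
def Bad {n : ℕ} (k : ℕ) (r : Fin n → Fin n → Prop) : Prop :=
  ∃ (W : ℕ → Fin n) (Z : ℕ → ℕ → Fin n),
    (∀ i j, i < j → j < k → r (W i) (W j)) ∧
    (∀ p, p < k → ∀ i j, i < j → j < k → r (Z p i) (Z p j)) ∧
    (∀ p, p < k → ∀ i, i < k → ∀ j, j < k →
      W i ≠ Z p j ∧ ¬ r (W i) (Z p j) ∧ ¬ r (Z p j) (W i)) ∧
    (∀ p, p < k → ∀ i, i < k → ht r (W i) < ht r (Z p 0)) ∧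
    (∀ p, p < k → ∀ q, q < k → p ≠ q → ¬ r (Z p 0) (Z q 0) ∧ ¬ Twin r (Z p 0) (Z q 0))

/-- The twins of `v` whose number is at least the number of `v`. -/
noncomputable def suf {n : ℕ} (r : Fin n → Fin n → Prop) (v : Fin n) : Finset (Fin n) :=
  univ.filter fun u => Twin r v u ∧ v ≤ u

/-- All jobs which belong to, or have a predecessor in, one of the sets `suf r v`, `v ∈ V`. -/
noncomputable def up {n : ℕ} (r : Fin n → Fin n → Prop) (V : Finset (Fin n)) : Finset (Fin n) :=
  univ.filter fun u => ∃ v ∈ V, ∃ x ∈ suf r v, x = u ∨ r x u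

/-- The jobs of height at least `l` in `up r V`. -/
noncomputable def bef {n : ℕ} (r : Fin n → Fin n → Prop) (l : ℕ) (V : Finset (Fin n)) :
    Finset (Fin n) :=
  (up r V).filter fun u => l ≤ ht r u

/-- The jobs of height at least `l` in `up r V` outside `Z`. -/
noncomputable def aft {n : ℕ} (r : Fin n → Fin n → Prop) (l : ℕ) (V Z : Finset (Fin n)) :
    Finset (Fin n) :=
  bef r l V \ Z

/-- The jobs of height exactly `l` in `aft r l V Z` outside `bef r l Y`. -/
noncomputable def Bset {n : ℕ} (r : Fin n → Fin n → Prop) (l : ℕ) (V Z Y : Finset (Fin n)) :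
    Finset (Fin n) :=
  (aft r l V Z \ bef r l Y).filter fun u => ht r u = l

/-- The facts of the rule system.
`A l V Z Y` stands for: the jobs of `aft r l V Z \ bef r l Y` can be processed in full slots.
`P l V Z Y V' Z' b` stands for: one can process, in full slots, the jobs of
`aft r (l+1) V Z \ aft r (l+1) V' Z'` together with `b` jobs of `Bset r l V Z Y`, the last slot
containing the jobs of `Z'`. -/
inductive Fact (n : ℕ) : Type
  | A (l : ℕ) (V Z Y : Finset (Fin n)) : Fact n
  | P (l : ℕ) (V Z Y V' Z' : Finset (Fin n)) (b : ℕ) : Fact n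

/-- Admissible descriptions of a starting point. -/
def Start {n : ℕ} (m c : ℕ) (V Z : Finset (Fin n)) : Prop :=
  (V = univ ∧ Z = ∅) ∨ (V.card ≤ c ∧ Z.card ≤ m)

/-- The side condition for a slot that contains the jobs of `Z'` and jobs of height `l`. -/
def Slot {n : ℕ} (r : Fin n → Fin n → Prop) (m c l : ℕ) (V Z Y V' Z' : Finset (Fin n))
    (b : ℕ) : Prop :=
  Y.card ≤ c ∧ V'.card ≤ c ∧ Z'.card ≤ m ∧ (∀ v ∈ V', l + 1 ≤ ht r v) ∧
    (∀ z ∈ Z', z ∈ bef r (l + 1) V' ∧ ∀ u ∈ bef r (l + 1) V', ¬ r u z) ∧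
    b ≤ (Bset r l V Z Y \ up r V').card

/-- The rules: `Step r m c X f` says that `f` follows by one rule from (at most two) facts
in `X`. -/
inductive Step {n : ℕ} (r : Fin n → Fin n → Prop) (m c : ℕ) (X : Set (Fact n)) : Fact n → Prop
  | base (V Z Y : Finset (Fin n)) (hs : Start m c V Z) (hY : Y.card ≤ c) :
      Step r m c X (Fact.A n V Z Y)
  | skip (l : ℕ) (V Z Y : Finset (Fin n)) (h : Fact.A (l + 1) V Z Y ∈ X)
      (hn : bef r l Y ⊆ aft r l V Z) (hB : (Bset r l V Z Y).card = 0) :
      Step r m c X (Fact.A l V Z Y)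
  | first (l : ℕ) (V Z Y V' Z' : Finset (Fin n)) (h : Fact.A (l + 1) V Z V' ∈ X)
      (hs : Slot r m c l V Z Y V' Z' (m - Z'.card)) :
      Step r m c X (Fact.P l V Z Y V' Z' (m - Z'.card))
  | next (l : ℕ) (V Z Y V₁ Z₁ V' Z' : Finset (Fin n)) (b : ℕ)
      (h : Fact.P l V Z Y V₁ Z₁ b ∈ X) (h' : Fact.A (l + 1) V₁ Z₁ V' ∈ X)
      (hs : Slot r m c l V Z Y V' Z' (b + (m - Z'.card))) :
      Step r m c X (Fact.P l V Z Y V' Z' (b + (m - Z'.card)))
  | fin (l : ℕ) (V Z Y V₁ Z₁ : Finset (Fin n)) (b : ℕ)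
      (h : Fact.P l V Z Y V₁ Z₁ b ∈ X) (h' : Fact.A (l + 1) V₁ Z₁ Y ∈ X)
      (hn : bef r l Y ⊆ aft r l V Z) (hb : b = (Bset r l V Z Y).card) :
      Step r m c X (Fact.A l V Z Y)

/-- The facts found after `i` rounds of forward chaining. -/
def stage {n : ℕ} (r : Fin n → Fin n → Prop) (m c : ℕ) : ℕ → Set (Fact n)
  | 0 => ∅
  | i + 1 => {f | Step r m c (stage r m c i) f}

/-- The bound for the number of facts and for the number of rounds. -/
def size (N m c : ℕ) : ℕ := 4 * (N + 1) ^ (3 * c + 2 * m + 2)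

/-- The instance `r` filled up to `N` jobs by jobs without predecessors and successors. -/
def pad {n : ℕ} (r : Fin n → Fin n → Prop) (N : ℕ) (i j : Fin N) : Prop :=
  ∃ (hi : i.1 < n) (hj : j.1 < n), r ⟨i.1, hi⟩ ⟨j.1, hj⟩

/-- The procedure with parameter `c` accepts if `T ≥ n` (then there is a trivial schedule), or
if `n ≤ m * T` and, for the instance filled up to `m * T` jobs, the root fact is found after
`size (m * T) m c` rounds of forward chaining. -/
def Accepts {n : ℕ} (r : Fin n → Fin n → Prop) (m c T : ℕ) : Prop :=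
  n ≤ T ∨ (n ≤ m * T ∧
    Fact.A 0 univ ∅ ∅ ∈ stage (pad r (m * T)) m c (size (m * T) m c))

end Helper58SC
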