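import Pool.Agent.Helper58.SC.Canon

/-!
# Filling up an instance; trivial schedules
-/

namespace Helper58SC

open Finset

attribute [local instance] Classical.propDecidable

theorem pad_strict {n : ℕ} (r : Fin n → Fin n → Prop) (hr : IsStrictOrder (Fin n) r) (N : ℕ) :
    IsStrictOrder (Fin N) (pad r N) := by
  refine { irrefl := ?_, trans := ?_ }
  · rintro a ⟨h1, h2, h3⟩
    exact hr.irrefl _ h3
  · rintro a b c ⟨h1, h2, h3⟩ ⟨h4, h5, h6⟩
    exact ⟨h1, h5, hr.trans _ _ _ h3 h6⟩

/-- Distribution of a set over `T` slots with prescribed numbers. -/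
theorem fill {α : Type*} (T : ℕ) : ∀ (d : ℕ → ℕ) (D : Finset α),
    (∑ t ∈ Finset.range T, d t) = D.card →
    ∃ g : α → ℕ, (∀ v ∈ D, g v < T) ∧ ∀ t < T, (D.filter fun v => g v = t).card = d t := by
  induction T with
  | zero =>
    intro d D h
    have hD : D = ∅ := by
      rw [← Finset.card_eq_zero, ← h]
      simp
    subst hD
    exact ⟨fun _ => 0, by simp, by intro t ht; exact absurd ht (Nat.not_lt_zero _)⟩
  | succ T ih =>
    intro d D h
    rw [Finset.sum_range_succ] at h
    obtain ⟨D', hD', hD'c⟩ := Finset.exists_subset_card_eq (s := D) (n := d T) (by omega)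
    obtain ⟨g, hg1, hg2⟩ := ih d (D \ D') (by rw [Finset.card_sdiff_of_subset hD']; omega)
    refine ⟨fun v => if v ∈ D' then T else g v, ?_, ?_⟩
    · intro v hv
      by_cases h1 : v ∈ D'
      · simp [h1]
      · simp only [h1, if_false]
        have := hg1 v (Finset.mem_sdiff.mpr ⟨hv, h1⟩)
        omega
    · intro t ht
      rcases Nat.lt_or_ge t T with h1 | h1
      · rw [← hg2 t h1]
        congr 1
        ext v
        simp only [mem_filter, mem_sdiff]
        constructor
        · rintro ⟨h2, h3⟩
          by_cases h4 : v ∈ D'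
          · simp only [h4, if_true] at h3
            omega
          · simp only [h4, if_false] at h3
            exact ⟨⟨h2, h4⟩, h3⟩
        · rintro ⟨⟨h2, h3⟩, h4⟩
          refine ⟨h2, ?_⟩
          simp only [h3, if_false]
          exact h4
      · have h2 : t = T := by omega
        subst h2
        rw [← hD'c]
        congr 1
        ext v
        simp only [mem_filter]
        constructor
        · rintro ⟨h2, h3⟩
          by_contra h4
          simp only [h4, if_false] at h3
          have := hg1 v (Finset.mem_sdiff.mpr ⟨h2, h4⟩)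
          omega
        · intro h2
          refine ⟨hD' h2, ?_⟩
          simp [h2]

/-- A schedule of `r` extends to a full schedule of the instance filled up. -/
theorem full_of_feasible {n : ℕ} (r : Fin n → Fin n → Prop) (m T : ℕ) (hn : n ≤ m * T)
    (h : Feasible r m T) : ∃ S, PS (pad r (m * T)) m T S := by
  obtain ⟨S₀, h1, h2, h3⟩ := h
  let D : Finset (Fin (m * T)) := univ.filter fun v => n ≤ v.1
  let f : ℕ → ℕ := fun t => (univ.filter fun j => S₀ j = t).card
  have hf : ∀ t, f t ≤ m := h1
  have hsum : (∑ t ∈ Finset.range T, f t) = n := by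
    have := Finset.card_eq_sum_card_fiberwise (f := S₀) (s := univ) (t := Finset.range T)
      (by
        intro v _
        simp only [coe_range, Set.mem_Iio]
        have := h3 v
        omega)
    rw [Finset.card_univ, Fintype.card_fin] at this
    exact this.symm
  have hD : D.card = m * T - n := by
    have h4 : (univ.filter fun v : Fin (m * T) => v.1 < n).card = n := by
      have e : (univ.filter fun v : Fin (m * T) => v.1 < n) =
          (univ : Finset (Fin n)).map (Fin.castLEEmb hn) := by
        ext v
        simp only [mem_filter, mem_univ, true_and, Finset.mem_map, Fin.castLEEmb_apply]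
        constructor
        · intro h
          exact ⟨⟨v.1, h⟩, rfl⟩
        · rintro ⟨a, rfl⟩
          exact a.2
      rw [e, Finset.card_map, Finset.card_univ, Fintype.card_fin]
    have h5 := Finset.card_filter_add_card_filter_not (s := (univ : Finset (Fin (m * T))))
      (fun v => v.1 < n)
    rw [h4, Finset.card_univ, Fintype.card_fin] at h5
    have h6 : D = univ.filter fun v : Fin (m * T) => ¬ v.1 < n := by
      ext v
      simp [D]
    rw [h6]
    omega
  have hsum2 : (∑ t ∈ Finset.range T, (m - f t)) = D.card := by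
    have e1 : (∑ t ∈ Finset.range T, (m - f t)) + ∑ t ∈ Finset.range T, f t = T * m := by
      rw [← Finset.sum_add_distrib]
      have e2 : ∀ t ∈ Finset.range T, (m - f t) + f t = m := by
        intro t _
        have := hf t
        omega
      rw [Finset.sum_congr rfl e2]
      simp
    have e3 : T * m = m * T := Nat.mul_comm _ _
    omega
  obtain ⟨g, hg1, hg2⟩ := fill T (fun t => m - f t) D hsum2
  let S : Fin (m * T) → ℕ := fun v => if h : v.1 < n then S₀ ⟨v.1, h⟩ else g v
  have hS1 : ∀ (v : Fin (m * T)) (h : v.1 < n), S v = S₀ ⟨v.1, h⟩ := by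
    intro v h
    simp [S, h]
  have hS2 : ∀ (v : Fin (m * T)), ¬ v.1 < n → S v = g v := by
    intro v h
    simp [S, h]
  refine ⟨S, ?_, ?_, ?_⟩
  · intro v
    by_cases h : v.1 < n
    · rw [hS1 v h]
      have := h3 ⟨v.1, h⟩
      omega
    · rw [hS2 v h]
      exact hg1 v (by simp only [D, mem_filter, mem_univ, true_and]; omega)
  · intro t ht
    have e1 : (univ.filter fun v => S v = t) =
        ((univ.filter fun j => S₀ j = t).map (Fin.castLEEmb hn)) ∪
          (D.filter fun v => g v = t) := by
      ext v
      simp only [mem_filter, mem_univ, true_and, mem_union, Finset.mem_map, Fin.castLEEmb_apply, D]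
      constructor
      · intro h
        by_cases h4 : v.1 < n
        · left
          rw [hS1 v h4] at h
          exact ⟨⟨v.1, h4⟩, h, rfl⟩
        · right
          rw [hS2 v h4] at h
          exact ⟨by omega, h⟩
      · rintro (⟨a, ha, rfl⟩ | ⟨h4, h5⟩)
        · have h6 : (Fin.castLE hn a).1 < n := a.2
          rw [hS1 _ h6]
          exact ha
        · rw [hS2 v (by omega)]
          exact h5
    rw [e1, Finset.card_union_of_disjoint, Finset.card_map, hg2 t ht]
    · have := hf t
      change f t + (m - f t) = m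
      omega
    · rw [Finset.disjoint_left]
      intro v hv hv'
      simp only [Finset.mem_map, mem_filter, mem_univ, true_and, Fin.castLEEmb_apply, D] at hv hv'
      obtain ⟨a, _, rfl⟩ := hv
      have h6 : (Fin.castLE hn a).1 < n := a.2
      omega
  · rintro a b ⟨ha, hb, hab⟩
    rw [hS1 a ha, hS1 b hb]
    have := h2 _ _ hab
    omega

/-- A full schedule of the instance filled up gives a schedule of `r`. -/
theorem feasible_of_perf {n : ℕ} (r : Fin n → Fin n → Prop) (m T : ℕ) (hm : 1 ≤ m)
    (hn : n ≤ m * T) (h : Perf (pad r (m * T)) m univ) : Feasible r m T := by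
  obtain ⟨τ, S, h1, h2, h3⟩ := h
  have hτ : τ = T := by
    have e := Finset.card_eq_sum_card_fiberwise (f := S) (s := (univ : Finset (Fin (m * T))))
      (t := Finset.range τ)
      (by
        intro v _
        simp only [coe_range, Set.mem_Iio]
        exact h1 v (Finset.mem_univ v))
    rw [Finset.card_univ, Fintype.card_fin] at e
    have e2 : (∑ b ∈ Finset.range τ, (univ.filter fun a => S a = b).card) =
        ∑ b ∈ Finset.range τ, m :=
      Finset.sum_congr rfl (fun b hb => h2 b (Finset.mem_range.mp hb))
    rw [e2] at e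
    simp only [Finset.sum_const, Finset.card_range, smul_eq_mul] at e
    have e3 : m * T = m * τ := by rw [e, Nat.mul_comm]
    exact (Nat.eq_of_mul_eq_mul_left (by omega) e3).symm
  subst hτ
  refine ⟨fun j => S (Fin.castLE hn j), ?_, ?_, ?_⟩
  · intro t
    by_cases ht : t < τ
    · refine le_trans ?_ (h2 t ht).le
      apply Finset.card_le_card_of_injOn (fun j => Fin.castLE hn j)
      · intro j hj
        simp only [coe_filter, mem_univ, true_and, Set.mem_ofPred_eq] at hj ⊢
        exact hj
      · intro a _ b _ hab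
        exact Fin.castLE_injective hn hab
    · have : (univ.filter fun j => S (Fin.castLE hn j) = t) = ∅ := by
        ext j
        simp only [mem_filter, mem_univ, true_and, Finset.notMem_empty, iff_false]
        have := h1 (Fin.castLE hn j) (Finset.mem_univ _)
        omega
      rw [this]
      simp
  · intro i j hij
    have := h3 (Fin.castLE hn i) (Finset.mem_univ _) (Fin.castLE hn j) (Finset.mem_univ _)
      ⟨i.2, j.2, hij⟩
    exact this
  · intro j
    exact h1 (Fin.castLE hn j) (Finset.mem_univ _)

/-- Reversing time. -/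
theorem feasible_rev {n : ℕ} (r : Fin n → Fin n → Prop) (m T : ℕ)
    (h : Feasible r m T) : Feasible (fun a b => r b a) m T := by
  obtain ⟨S, h1, h2, h3⟩ := h
  refine ⟨fun j => T - 1 - S j, ?_, ?_, ?_⟩
  · intro t
    by_cases ht : t < T
    · refine le_trans (Finset.card_le_card ?_) (h1 (T - 1 - t))
      intro j hj
      simp only [mem_filter, mem_univ, true_and] at hj ⊢
      have := h3 j
      omega
    · have : (univ.filter fun j => T - 1 - S j = t) = ∅ := by
        ext j
        simp only [mem_filter, mem_univ, true_and, Finset.notMem_empty, iff_false]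
        have := h3 j
        omega
      rw [this]
      simp
  · intro i j hij
    have e1 := h2 j i hij
    have e2 := h3 i
    have e3 := h3 j
    change T - 1 - S i + 1 ≤ T - 1 - S j
    omega
  · intro j
    have := h3 j
    change T - 1 - S j + 1 ≤ T
    omega

/-- If `T ≥ n`, then one machine is enough. -/
theorem feasible_of_le {n : ℕ} (r : Fin n → Fin n → Prop) (hr : IsStrictOrder (Fin n) r)
    (m T : ℕ) (hm : 1 ≤ m) (hn : n ≤ T) : Feasible r m T := by
  have hwt : ∀ a b : Fin n, wt r a = wt r b → a = b := by
    intro a b h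
    by_contra hne
    rcases Nat.lt_trichotomy (ht r a) (ht r b) with h1 | h1 | h1
    · have := wt_lt_of_ht r h1
      omega
    · rcases lt_or_gt_of_ne hne with h2 | h2
      · have := wt_lt_of_eq r h1.symm h2
        omega
      · have := wt_lt_of_eq r h1 h2
        omega
    · have := wt_lt_of_ht r h1
      omega
  let S : Fin n → ℕ := fun v => (univ.filter fun u => wt r v < wt r u).card
  have hS : ∀ a b : Fin n, wt r b < wt r a → S a < S b := by
    intro a b h
    apply Finset.card_lt_card
    rw [Finset.ssubset_iff_of_subset]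
    · refine ⟨a, by simp [h], by simp⟩
    · intro u hu
      simp only [mem_filter, mem_univ, true_and] at hu ⊢
      omega
  refine ⟨S, ?_, ?_, ?_⟩
  · intro t
    refine le_trans ?_ hm
    rw [Finset.card_le_one]
    intro a ha b hb
    simp only [mem_filter, mem_univ, true_and] at ha hb
    apply hwt
    by_contra hne
    rcases lt_or_gt_of_ne hne with h1 | h1
    · have := hS b a h1
      omega
    · have := hS a b h1
      omega
  · intro i j hij
    exact hS i j (wt_lt_of_ht r (ht_lt_of_rel r hr hij))
  · intro j
    have h1 : (univ.filter fun u => wt r j < wt r u) ⊆ univ.erase j := by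
      intro u hu
      simp only [mem_filter, mem_univ, true_and] at hu
      simp only [mem_erase, mem_univ, and_true]
      intro h
      rw [h] at hu
      exact lt_irrefl _ hu
    have h2 := Finset.card_le_card h1
    rw [Finset.card_erase_of_mem (Finset.mem_univ j), Finset.card_univ, Fintype.card_fin] at h2
    have h3 := j.2
    change (univ.filter fun u => wt r j < wt r u).card + 1 ≤ T
    omega

/-- The number of jobs is at most `m * T`. -/
theorem card_le_of_feasible {n : ℕ} (r : Fin n → Fin n → Prop) (m T : ℕ)
    (h : Feasible r m T) : n ≤ m * T := by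
  obtain ⟨S, h1, _, h3⟩ := h
  have e := Finset.card_eq_sum_card_fiberwise (f := S) (s := (univ : Finset (Fin n)))
    (t := Finset.range T)
    (by
      intro v _
      simp only [coe_range, Set.mem_Iio]
      have := h3 v
      omega)
  rw [Finset.card_univ, Fintype.card_fin] at e
  rw [e]
  calc (∑ b ∈ Finset.range T, (univ.filter fun a => S a = b).card)
      ≤ ∑ _b ∈ Finset.range T, m := Finset.sum_le_sum (fun b _ => h1 b)
    _ = m * T := by simp [Nat.mul_comm]

theorem steps_pad {n : ℕ} (r : Fin n → Fin n → Prop) (N : ℕ) (hn : n ≤ N) :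
    ∀ (k : ℕ) (v : Fin N) (hv : v.1 < n), Steps (pad r N) k v ↔ Steps r k ⟨v.1, hv⟩ := by
  intro k
  induction k with
  | zero =>
    intro v hv
    exact Iff.rfl
  | succ k ih =>
    intro v hv
    constructor
    · rintro ⟨u, ⟨_, hu, hvu⟩, hu'⟩
      exact ⟨⟨u.1, hu⟩, hvu, (ih u hu).mp hu'⟩
    · rintro ⟨u, hu, hu'⟩
      refine ⟨⟨u.1, lt_of_lt_of_le u.2 hn⟩, ⟨hv, u.2, hu⟩, ?_⟩
      exact (ih ⟨u.1, lt_of_lt_of_le u.2 hn⟩ u.2).mpr hu'

theorem ht_pad {n : ℕ} (r : Fin n → Fin n → Prop) (hr : IsStrictOrder (Fin n) r) (N : ℕ)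
    (hn : n ≤ N) (v : Fin N) (hv : v.1 < n) : ht (pad r N) v = ht r ⟨v.1, hv⟩ := by
  apply le_antisymm
  · exact le_ht r hr _ _ ((steps_pad r N hn _ v hv).mp (steps_ht _ v))
  · exact le_ht _ (pad_strict r hr N) _ _ ((steps_pad r N hn _ v hv).mpr (steps_ht _ _))

/-- The forbidden configuration is not created by filling up. -/
theorem bad_of_pad {n : ℕ} (r : Fin n → Fin n → Prop) (hr : IsStrictOrder (Fin n) r)
    (N k : ℕ) (hnN : n ≤ N) (hk : 2 ≤ k)
    (h : Bad k (pad r N)) : Bad k r := by
  obtain ⟨W, Z, h1, h2, h3, h5, h4⟩ := h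
  have hW : ∀ i, i < k → (W i).1 < n := by
    intro i hi
    rcases Nat.eq_zero_or_pos i with h | h
    · obtain ⟨ha, _, _⟩ := h1 i 1 (by omega) (by omega)
      exact ha
    · obtain ⟨_, hb, _⟩ := h1 0 i h hi
      exact hb
  have hZ : ∀ p, p < k → ∀ i, i < k → (Z p i).1 < n := by
    intro p hp i hi
    rcases Nat.eq_zero_or_pos i with h | h
    · obtain ⟨ha, _, _⟩ := h2 p hp i 1 (by omega) (by omega)
      exact ha
    · obtain ⟨_, hb, _⟩ := h2 p hp 0 i h hi
      exact hb
  have hn : 0 < n := by
    have := hW 0 (by omega)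
    omega
  let f : Fin N → Fin n := fun v => if h : v.1 < n then ⟨v.1, h⟩ else ⟨0, hn⟩
  have hf : ∀ (v : Fin N) (h : v.1 < n), f v = ⟨v.1, h⟩ := by
    intro v h
    simp [f, h]
  have hrel : ∀ (a b : Fin N), a.1 < n → b.1 < n → (pad r N a b ↔ r (f a) (f b)) := by
    intro a b ha hb
    rw [hf a ha, hf b hb]
    constructor
    · rintro ⟨_, _, h⟩
      exact h
    · intro h
      exact ⟨ha, hb, h⟩
  have hinj : ∀ (a b : Fin N), a.1 < n → b.1 < n → f a = f b → a = b := by
    intro a b ha hb h
    rw [hf a ha, hf b hb] at h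
    exact Fin.ext (by simpa using h)
  refine ⟨fun i => f (W i), fun p j => f (Z p j), ?_, ?_, ?_, ?_, ?_⟩
  · intro i j hij hj
    exact (hrel _ _ (hW i (by omega)) (hW j hj)).mp (h1 i j hij hj)
  · intro p hp i j hij hj
    exact (hrel _ _ (hZ p hp i (by omega)) (hZ p hp j hj)).mp (h2 p hp i j hij hj)
  · intro p hp i hi j hj
    obtain ⟨e1, e2, e3⟩ := h3 p hp i hi j hj
    have w := hW i hi
    have z := hZ p hp j hj
    refine ⟨fun h => e1 (hinj _ _ w z h), fun h => e2 ((hrel _ _ w z).mpr h),
      fun h => e3 ((hrel _ _ z w).mpr h)⟩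
  · intro p hp i hi
    have w := hW i hi
    have z := hZ p hp 0 (by omega)
    have e := h5 p hp i hi
    rw [ht_pad r hr N hnN _ w, ht_pad r hr N hnN _ z] at e
    simp only [hf _ w, hf _ z]
    exact e
  · intro p hp q hq hpq
    obtain ⟨e1, e2⟩ := h4 p hp q hq hpq
    have zp := hZ p hp 0 (by omega)
    have zq := hZ q hq 0 (by omega)
    refine ⟨fun h => e1 ((hrel _ _ zp zq).mpr h), ?_⟩
    intro h
    apply e2
    intro u
    by_cases hu : u.1 < n
    · rw [hrel u _ hu zp, hrel u _ hu zq, hrel _ u zp hu, hrel _ u zq hu]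
      exact h (f u)
    · have n1 : ∀ v, ¬ pad r N u v := fun v ⟨a, _, _⟩ => hu a
      have n2 : ∀ v, ¬ pad r N v u := fun v ⟨_, a, _⟩ => hu a
      exact ⟨⟨fun h => absurd h (n1 _), fun h => absurd h (n1 _)⟩,
        ⟨fun h => absurd h (n2 _), fun h => absurd h (n2 _)⟩⟩

end Helper58SC
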