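import Pool.Agent.Helper58.SC.Canon

/-!
# Few higher jobs are available when a job is processed
-/

namespace Helper58SC

open Finset

attribute [local instance] Classical.propDecidable

variable {n : ℕ}

/-- A longest chain above `v`, with the heights of its members. -/
theorem ht_chain (r : Fin n → Fin n → Prop) (hr : IsStrictOrder (Fin n) r) :
    ∀ (k : ℕ) (v : Fin n), ht r v = k →
      ∃ z : ℕ → Fin n, z 0 = v ∧ (∀ j < k, r (z j) (z (j + 1))) ∧
        ∀ j ≤ k, ht r (z j) + j = k := by
  intro k
  induction k with
  | zero =>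
    intro v hv
    refine ⟨fun _ => v, rfl, by intro j hj; exact absurd hj (Nat.not_lt_zero _), ?_⟩
    intro j hj
    have : j = 0 := by omega
    subst this
    omega
  | succ k ih =>
    intro v hv
    have h := steps_ht r v
    rw [hv] at h
    obtain ⟨u, hu, hu'⟩ := h
    have h1 := le_ht r hr k u hu'
    have h2 := ht_lt_of_rel r hr hu
    obtain ⟨z, hz0, hz1, hz2⟩ := ih u (by omega)
    refine ⟨fun j => if j = 0 then v else z (j - 1), by simp, ?_, ?_⟩
    · intro j hj
      rcases j with _ | j
      · simp only [if_true, zero_add, Nat.one_ne_zero, if_false, Nat.sub_self, hz0]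
        exact hu
      · have h3 : (j + 1 = 0) = False := by simp
        have h4 : (j + 1 + 1 = 0) = False := by simp
        simp only [h3, h4, if_false, Nat.add_sub_cancel]
        exact hz1 j (by omega)
    · intro j hj
      rcases j with _ | j
      · simp only [if_true]
        omega
      · have h3 : (j + 1 = 0) = False := by simp
        simp only [h3, if_false, Nat.add_sub_cancel]
        have := hz2 j (by omega)
        omega

theorem chain_rel (r : Fin n → Fin n → Prop) (hr : IsStrictOrder (Fin n) r) (z : ℕ → Fin n)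
    (k : ℕ) (hz : ∀ j < k, r (z j) (z (j + 1))) :
    ∀ j ≤ k, ∀ i < j, r (z i) (z j) := by
  intro j
  induction j with
  | zero =>
    intro _ i hi
    exact absurd hi (Nat.not_lt_zero _)
  | succ j ih =>
    intro hj i hi
    rcases Nat.lt_or_ge i j with h1 | h1
    · exact hr.trans _ _ _ (ih (by omega) i h1) (hz j (by omega))
    · have : i = j := by omega
      subst this
      exact hz i (by omega)

/-- The staircase: if there are many representatives, then there is a chain `w 0, ..., w s`
with `w 0 = x` and representatives `y 0, ..., y (s-1)`, the job `y i` in the slot of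
`w (i+1)`. -/
theorem staircase (r : Fin n → Fin n → Prop) (hr : IsStrictOrder (Fin n) r) (m T : ℕ)
    (S : Fin n → ℕ) (hS : PS r m T S) (hmin : ∀ S', PS r m T S' → pot r S ≤ pot r S')
    (x : Fin n) (s : ℕ) (hc : (m - 1) * s < (Rep r S (ht r x + 1) (S x)).card) :
    ∃ (w y : ℕ → Fin n), w 0 = x ∧ (∀ i < s, r (w i) (w (i + 1))) ∧
      (∀ i < s, S (w (i + 1)) = S (y i)) ∧ (∀ i < s, y i ∈ Rep r S (ht r x + 1) (S x)) ∧
      (∀ i j, i < j → j < s → S (y i) < S (y j)) ∧ (∀ i < s, S x < S (y i)) := by
  set V := Rep r S (ht r x + 1) (S x) with hV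
  have hVA : ∀ v ∈ V, ht r x + 1 ≤ ht r v ∧ S x ≤ S v ∧ ∀ u, r u v → S u < S x := by
    intro v hv
    rw [hV, mem_Rep, mem_Asrc] at hv
    exact hv.1
  have hm : 1 ≤ m := by
    have h1 := hS.2.1 (S x) (hS.1 x)
    have h2 : 0 < (univ.filter fun v => S v = S x).card :=
      Finset.card_pos.mpr ⟨x, by simp⟩
    omega
  -- each slot contains at most `m - 1` representatives
  have hfib : ∀ t ∈ V.image S, (V.filter fun v => S v = t).card ≤ m - 1 := by
    intro t ht
    obtain ⟨v, hv, hvt⟩ := Finset.mem_image.mp ht
    have hv' := hVA v hv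
    have hlow : ∃ w, S w = t ∧ Helper58SC.ht r w ≤ Helper58SC.ht r x := by
      rcases Nat.lt_or_ge (S x) (S v) with h | h
      · obtain ⟨w, _, hw, hw'⟩ := chain_lemma r hr m T S hS hmin v (S x) hv'.2.2 (S v) x le_rfl h
          (Nat.sub_le _ _) (by omega)
        exact ⟨w, by omega, hw'.le⟩
      · exact ⟨x, by omega, le_rfl⟩
    obtain ⟨w, hw, hw'⟩ := hlow
    have hwV : w ∉ V := by
      intro h
      have := (hVA w h).1
      omega
    have htT : t < T := by
      rw [← hvt]
      exact hS.1 v
    have hsub : (V.filter fun v => S v = t) ⊆ (univ.filter fun v => S v = t).erase w := by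
      intro u hu
      simp only [mem_filter] at hu
      simp only [mem_erase, mem_filter, mem_univ, true_and]
      refine ⟨?_, hu.2⟩
      intro h
      rw [h] at hu
      exact hwV hu.1
    have h1 := Finset.card_le_card hsub
    rw [Finset.card_erase_of_mem (by simp [hw]), hS.2.1 t htT] at h1
    exact h1
  have himg : V.card ≤ (m - 1) * (V.image S).card := by
    have h1 := Finset.card_le_mul_card_image (f := S) V (m - 1) hfib
    exact h1
  have hcard : s + 1 ≤ (V.image S).card := by
    by_contra hcon
    push Not at hcon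
    have h1 : (V.image S).card ≤ s := by omega
    have h2 := Nat.mul_le_mul_left (m - 1) h1
    omega
  have hI : s ≤ ((V.image S).erase (S x)).card := by
    have := Finset.pred_card_le_card_erase (s := V.image S) (a := S x)
    omega
  let emb := Finset.orderEmbOfCardLe ((V.image S).erase (S x)) hI
  have hemb : ∀ i, emb i ∈ (V.image S).erase (S x) := fun i => Finset.orderEmbOfCardLe_mem _ hI i
  have hy : ∀ i : Fin s, ∃ y ∈ V, S y = emb i := by
    intro i
    exact Finset.mem_image.mp (Finset.mem_of_mem_erase (hemb i))
  choose yf hyV hyS using hy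
  let y : ℕ → Fin n := fun i => if h : i < s then yf ⟨i, h⟩ else x
  have hyi : ∀ i (h : i < s), y i = yf ⟨i, h⟩ := by
    intro i h
    simp [y, h]
  have hyVi : ∀ i < s, y i ∈ V := by
    intro i h
    rw [hyi i h]
    exact hyV _
  have hlt : ∀ i < s, S x < S (y i) := by
    intro i h
    have h1 := (hVA (y i) (hyVi i h)).2.1
    have h2 : S (y i) ≠ S x := by
      rw [hyi i h, hyS]
      exact Finset.ne_of_mem_erase (hemb _)
    omega
  have hinc : ∀ i j, i < j → j < s → S (y i) < S (y j) := by
    intro i j hij hj
    rw [hyi i (by omega), hyi j hj, hyS, hyS]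
    exact emb.strictMono (by exact hij)
  have hw : ∀ k ≤ s, ∃ w : ℕ → Fin n, w 0 = x ∧ (∀ i < k, r (w i) (w (i + 1))) ∧
      (∀ i < k, S (w (i + 1)) = S (y i)) := by
    intro k
    induction k with
    | zero =>
      intro _
      refine ⟨fun _ => x, rfl, ?_, ?_⟩ <;> intro i hi <;> exact absurd hi (Nat.not_lt_zero _)
    | succ k ih =>
      intro hk
      obtain ⟨w, h0, h1, h2⟩ := ih (by omega)
      have hSk : S x ≤ S (w k) ∧ S (w k) < S (y k) := by
        rcases k with _ | k
        · rw [h0]
          exact ⟨le_rfl, hlt 0 (by omega)⟩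
        · rw [h2 k (by omega)]
          exact ⟨(hlt k (by omega)).le, hinc k (k + 1) (by omega) (by omega)⟩
      have hhk : ht r (w k) ≤ ht r x := by
        rcases k with _ | k
        · rw [h0]
        · have h3 := chain_rel r hr w (k + 1) h1 (k + 1) le_rfl 0 (by omega)
          rw [h0] at h3
          exact (ht_lt_of_rel r hr h3).le
      have hyk := hVA (y k) (hyVi k (by omega))
      obtain ⟨u, hu, hu', _⟩ := chain_lemma r hr m T S hS hmin (y k) (S x) hyk.2.2
        (S (y k)) (w k) hSk.1 hSk.2 (Nat.sub_le _ _) (by omega)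
      refine ⟨fun i => if i ≤ k then w i else u, by simp [h0], ?_, ?_⟩
      · intro i hi
        rcases Nat.lt_or_ge i k with h | h
        · have e1 : i ≤ k := h.le
          have e2 : i + 1 ≤ k := h
          simp only [e1, e2, if_true]
          exact h1 i h
        · have e : i = k := by omega
          subst e
          have e2 : ¬ (i + 1 ≤ i) := by omega
          simp only [le_refl, if_true, e2, if_false]
          exact hu
      · intro i hi
        rcases Nat.lt_or_ge i k with h | h
        · have e2 : i + 1 ≤ k := h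
          simp only [e2, if_true]
          exact h2 i h
        · have e : i = k := by omega
          subst e
          have e2 : ¬ (i + 1 ≤ i) := by omega
          simp only [e2, if_false]
          exact hu'
  obtain ⟨w, h0, h1, h2⟩ := hw s le_rfl
  exact ⟨w, y, h0, h1, h2, hyVi, hinc, hlt⟩

/-- Without the forbidden configuration there are few representatives. -/
theorem rep_card (r : Fin n → Fin n → Prop) (hr : IsStrictOrder (Fin n) r) (m T : ℕ)
    (S : Fin n → ℕ) (hS : PS r m T S) (hmin : ∀ S', PS r m T S' → pot r S ≤ pot r S')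
    (k : ℕ) (hk : 2 ≤ k) (hB : ¬ Bad k r) (x : Fin n) :
    (Rep r S (ht r x + 1) (S x)).card ≤ (m - 1) * (3 * k - 4) := by
  by_contra hcon
  push Not at hcon
  obtain ⟨w, y, h0, h1, h2, h3, h4, h5⟩ := staircase r hr m T S hS hmin x (3 * k - 4) hcon
  apply hB
  have hyA : ∀ i < 3 * k - 4, ht r x + 1 ≤ ht r (y i) ∧ S x ≤ S (y i) ∧
      ∀ u, r u (y i) → S u < S x := by
    intro i hi
    have := h3 i hi
    rw [mem_Rep, mem_Asrc] at this
    exact this.1
  have hwh : ∀ i ≤ 3 * k - 4, ht r (w i) + i ≤ ht r x := by
    intro i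
    induction i with
    | zero =>
      intro _
      rw [h0]
      omega
    | succ i ih =>
      intro hi
      have e1 := ih (by omega)
      have e2 := ht_lt_of_rel r hr (h1 i (by omega))
      omega
  have hz : ∀ p, ∃ z : ℕ → Fin n, z 0 = y p ∧ (∀ j < ht r (y p), r (z j) (z (j + 1))) ∧
      ∀ j ≤ ht r (y p), ht r (z j) + j = ht r (y p) := fun p => ht_chain r hr _ (y p) rfl
  choose z hz0 hz1 hz2 using hz
  have hsx := hwh (3 * k - 4) le_rfl
  refine ⟨fun i => w (k - 2 + i), fun p j => z (2 * k - 4 + p) j, ?_, ?_, ?_, ?_, ?_⟩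
  · intro i j hij hj
    exact chain_rel r hr w (3 * k - 4) h1 (k - 2 + j) (by omega) (k - 2 + i) (by omega)
  · intro p hp i j hij hj
    have e := (hyA (2 * k - 4 + p) (by omega)).1
    exact chain_rel r hr (z (2 * k - 4 + p)) (ht r (y (2 * k - 4 + p))) (hz1 _) j (by omega) i hij
  · intro p hp i hi j hj
    have e := hyA (2 * k - 4 + p) (by omega)
    have e1 := hwh (k - 2 + i) (by omega)
    have e2 := hz2 (2 * k - 4 + p) j (by omega)
    -- `y ≤ z j`
    have e3 : z (2 * k - 4 + p) j = y (2 * k - 4 + p) ∨
        r (y (2 * k - 4 + p)) (z (2 * k - 4 + p) j) := by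
      rcases j with _ | j
      · exact Or.inl (hz0 _)
      · right
        have := chain_rel r hr (z (2 * k - 4 + p)) (ht r (y (2 * k - 4 + p))) (hz1 _) (j + 1)
          (by omega) 0 (by omega)
        rw [hz0] at this
        exact this
    -- the slot of `w (k - 2 + i)` is not later than the slot of `y`
    have e4 : S (w (k - 2 + i)) ≤ S (y (2 * k - 4 + p)) := by
      rcases Nat.eq_zero_or_pos (k - 2 + i) with h | h
      · rw [h, h0]
        exact e.2.1
      · obtain ⟨q, hq⟩ : ∃ q, k - 2 + i = q + 1 := ⟨k - 2 + i - 1, by omega⟩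
        rw [hq, h2 q (by omega)]
        rcases Nat.lt_or_ge q (2 * k - 4 + p) with h' | h'
        · exact (h4 q _ h' (by omega)).le
        · have : q = 2 * k - 4 + p := by omega
          rw [this]
    have key : ∀ b, (b = y (2 * k - 4 + p) ∨ r (y (2 * k - 4 + p)) b) →
        w (k - 2 + i) = b ∨ r b (w (k - 2 + i)) → False := by
      intro b hb hb'
      have hyw : w (k - 2 + i) = y (2 * k - 4 + p) ∨ r (y (2 * k - 4 + p)) (w (k - 2 + i)) := by
        rcases hb with rfl | hb
        · rcases hb' with h | h
          · exact Or.inl h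
          · exact Or.inr h
        · rcases hb' with h | h
          · right
            rw [h]
            exact hb
          · exact Or.inr (hr.trans _ _ _ hb h)
      rcases hyw with h | h
      · rw [h] at e1
        omega
      · have := hS.2.2 _ _ h
        omega
    refine ⟨fun h => key _ e3 (Or.inl h), ?_, fun h => key _ e3 (Or.inr h)⟩
    intro h
    have h' : r (w (k - 2 + i)) (z (2 * k - 4 + p) j) := h
    have := ht_lt_of_rel r hr h'
    omega
  · intro p hp i hi
    have e := hyA (2 * k - 4 + p) (by omega)
    have e1 := hwh (k - 2 + i) (by omega)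
    simp only [hz0]
    omega
  · intro p hp q hq hpq
    have ep := hyA (2 * k - 4 + p) (by omega)
    have eq := hyA (2 * k - 4 + q) (by omega)
    simp only [hz0]
    refine ⟨?_, ?_⟩
    · intro h
      have := eq.2.2 _ h
      omega
    · apply Rep_not_twin r S _ _ (h3 _ (by omega)) (h3 _ (by omega))
      intro h
      rcases Nat.lt_or_ge p q with h' | h'
      · have := h4 (2 * k - 4 + p) (2 * k - 4 + q) (by omega) (by omega)
        rw [h] at this
        omega
      · have := h4 (2 * k - 4 + q) (2 * k - 4 + p) (by omega) (by omega)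
        rw [h] at this
        omega

end Helper58SC
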