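import Pool.Agent.Helper58.SC.Count
import Pool.Agent.Helper58.SC.Compl
import Pool.Agent.Helper58.SC.Stair
import Pool.Agent.Helper58.SC.Pad

/-!
# The procedure is correct
-/

namespace Helper58SC

open Finset

attribute [local instance] Classical.propDecidable

/-- The procedure never accepts wrongly. -/
theorem feasible_of_accepts {n : ℕ} (r : Fin n → Fin n → Prop) (hr : IsStrictOrder (Fin n) r)
    (m c T : ℕ) (hm : 1 ≤ m) (h : Accepts r m c T) : Feasible r m T := by
  rcases h with h | ⟨hn, h⟩
  · exact feasible_of_le r hr m T hm h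
  · apply feasible_of_perf r m T hm hn
    have h1 := sound _ (pad_strict r hr (m * T)) m c _ ((der_iff_stage _ _ _ _).mpr h)
    have h2 := h1.2
    have h3 : aft (pad r (m * T)) 0 univ ∅ \ bef (pad r (m * T)) 0 ∅ = univ := by
      ext v
      simp only [mem_sdiff, mem_aft, mem_bef, Nat.zero_le, and_true, Finset.notMem_empty,
        not_false_eq_true, mem_univ, iff_true]
      refine ⟨?_, ?_⟩
      · rw [mem_up]
        exact ⟨v, Finset.mem_univ _, v, by simp [suf, twin_refl], Or.inl rfl⟩
      · rw [mem_up]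
        rintro ⟨w, hw, _⟩
        exact absurd hw (Finset.notMem_empty _)
    rw [h3] at h2
    exact h2

/-- The procedure accepts every feasible instance without the forbidden configuration. -/
theorem accepts_of_feasible {n : ℕ} (r : Fin n → Fin n → Prop) (hr : IsStrictOrder (Fin n) r)
    (m k T : ℕ) (hk : 2 ≤ k) (hB : ¬ Bad k r) (h : Feasible r m T) :
    Accepts r m ((m - 1) * (3 * k - 4)) T := by
  right
  have hn := card_le_of_feasible r m T h
  refine ⟨hn, ?_⟩
  have hr' := pad_strict r hr (m * T)
  obtain ⟨S, hS, hmin⟩ := exists_canon (pad r (m * T)) m T (full_of_feasible r m T hn h)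
  rw [← der_iff_stage]
  apply compl_root _ hr' m T _ S hS hmin
  intro x
  exact rep_card _ hr' m T S hS hmin k hk (fun hb => hB (bad_of_pad r hr _ k hn hk hb)) x

theorem strict_rev {n : ℕ} (r : Fin n → Fin n → Prop) (hr : IsStrictOrder (Fin n) r) :
    IsStrictOrder (Fin n) (fun a b => r b a) :=
  { irrefl := fun a h => hr.irrefl a h
    trans := fun _ _ _ h h' => hr.trans _ _ _ h' h }

/-- The facts found in an instance filled up to `m * T` jobs, `T ≤ n`. -/
theorem facts_bound {n : ℕ} (r : Fin n → Fin n → Prop) (m c T : ℕ) (hT : T ≤ n) :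
    size (m * T) m c ≤ 4 * (m * n + 1) ^ (3 * c + 2 * m + 2) ∧
    ∃ F : Finset (Fact (m * T)), F.card ≤ 4 * (m * n + 1) ^ (3 * c + 2 * m + 2) ∧
      ∀ i, stage (pad r (m * T)) m c i ⊆ ↑F := by
  have h1 : size (m * T) m c ≤ 4 * (m * n + 1) ^ (3 * c + 2 * m + 2) := by
    unfold size
    apply Nat.mul_le_mul_left
    apply Nat.pow_le_pow_left
    have := Nat.mul_le_mul_left m hT
    omega
  refine ⟨h1, legal (m * T) m c, le_trans (legal_card _ _ _) h1, ?_⟩
  intro i f hf
  exact stage_legal _ m c i f hf

end Helper58SC
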