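import Pool.Agent.Helper58.SC.Defs

/-!
# Soundness of the rule system
-/

namespace Helper58SC

open Finset

attribute [local instance] Classical.propDecidable

variable {n : ℕ}

/-- The rule system (every rule has at most two premises). -/
inductive Der {n : ℕ} (r : Fin n → Fin n → Prop) (m c : ℕ) : Fact n → Prop
  | base (V Z Y : Finset (Fin n)) (hs : Start m c V Z) (hY : Y.card ≤ c) :
      Der r m c (Fact.A n V Z Y)
  | skip (l : ℕ) (V Z Y : Finset (Fin n)) (h : Der r m c (Fact.A (l + 1) V Z Y))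
      (hn : bef r l Y ⊆ aft r l V Z) (hB : (Bset r l V Z Y).card = 0) :
      Der r m c (Fact.A l V Z Y)
  | first (l : ℕ) (V Z Y V' Z' : Finset (Fin n)) (h : Der r m c (Fact.A (l + 1) V Z V'))
      (hs : Slot r m c l V Z Y V' Z' (m - Z'.card)) :
      Der r m c (Fact.P l V Z Y V' Z' (m - Z'.card))
  | next (l : ℕ) (V Z Y V₁ Z₁ V' Z' : Finset (Fin n)) (b : ℕ)
      (h : Der r m c (Fact.P l V Z Y V₁ Z₁ b)) (h' : Der r m c (Fact.A (l + 1) V₁ Z₁ V'))
      (hs : Slot r m c l V Z Y V' Z' (b + (m - Z'.card))) :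
      Der r m c (Fact.P l V Z Y V' Z' (b + (m - Z'.card)))
  | fin (l : ℕ) (V Z Y V₁ Z₁ : Finset (Fin n)) (b : ℕ)
      (h : Der r m c (Fact.P l V Z Y V₁ Z₁ b)) (h' : Der r m c (Fact.A (l + 1) V₁ Z₁ Y))
      (hn : bef r l Y ⊆ aft r l V Z) (hb : b = (Bset r l V Z Y).card) :
      Der r m c (Fact.A l V Z Y)

/-- The jobs of `Q` can be processed in full slots (`m` jobs in each slot). -/
def Perf (r : Fin n → Fin n → Prop) (m : ℕ) (Q : Finset (Fin n)) : Prop :=
  ∃ (τ : ℕ) (S : Fin n → ℕ), (∀ v ∈ Q, S v < τ) ∧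
    (∀ t < τ, (Q.filter fun v => S v = t).card = m) ∧
    ∀ a ∈ Q, ∀ b ∈ Q, r a b → S a < S b

theorem perf_empty (r : Fin n → Fin n → Prop) (m : ℕ) : Perf r m ∅ :=
  ⟨0, fun _ => 0, by simp, by intro t ht; exact absurd ht (Nat.not_lt_zero _), by simp⟩

theorem perf_slot (r : Fin n → Fin n → Prop) (m : ℕ) (Q : Finset (Fin n)) (hQ : Q.card = m)
    (hr : ∀ a ∈ Q, ∀ b ∈ Q, ¬ r a b) : Perf r m Q := by
  refine ⟨1, fun _ => 0, by simp, ?_, ?_⟩
  · intro t ht
    have h0 : t = 0 := by omega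
    subst h0
    simpa using hQ
  · intro a ha b hb h
    exact absurd h (hr a ha b hb)

theorem perf_union (r : Fin n → Fin n → Prop) (m : ℕ) (Q₁ Q₂ : Finset (Fin n))
    (hd : Disjoint Q₁ Q₂) (h₁ : Perf r m Q₁) (h₂ : Perf r m Q₂)
    (hr : ∀ a ∈ Q₂, ∀ b ∈ Q₁, ¬ r a b) : Perf r m (Q₁ ∪ Q₂) := by
  obtain ⟨τ₁, S₁, a₁, b₁, c₁⟩ := h₁
  obtain ⟨τ₂, S₂, a₂, b₂, c₂⟩ := h₂
  have hn : ∀ v ∈ Q₂, v ∉ Q₁ := fun v hv hv' => (Finset.disjoint_left.mp hd) hv' hv
  refine ⟨τ₁ + τ₂, fun v => if v ∈ Q₁ then S₁ v else τ₁ + S₂ v, ?_, ?_, ?_⟩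
  · intro v hv
    by_cases h : v ∈ Q₁
    · simp only [h, if_true]
      have := a₁ v h
      omega
    · simp only [h, if_false]
      have := a₂ v ((Finset.mem_union.mp hv).resolve_left h)
      omega
  · intro t ht
    by_cases h : t < τ₁
    · rw [← b₁ t h]
      congr 1
      ext v
      simp only [mem_filter, mem_union]
      constructor
      · rintro ⟨hv, he⟩
        by_cases hv1 : v ∈ Q₁
        · simp only [hv1, if_true] at he
          exact ⟨hv1, he⟩
        · simp only [hv1, if_false] at he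
          omega
      · rintro ⟨hv, he⟩
        refine ⟨Or.inl hv, ?_⟩
        simp only [hv, if_true]
        exact he
    · rw [← b₂ (t - τ₁) (by omega)]
      congr 1
      ext v
      simp only [mem_filter, mem_union]
      constructor
      · rintro ⟨hv, he⟩
        by_cases hv1 : v ∈ Q₁
        · simp only [hv1, if_true] at he
          have := a₁ v hv1
          omega
        · simp only [hv1, if_false] at he
          refine ⟨hv.resolve_left hv1, ?_⟩
          omega
      · rintro ⟨hv, he⟩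
        refine ⟨Or.inr hv, ?_⟩
        simp only [hn v hv, if_false]
        omega
  · intro a ha b hb hab
    by_cases h1 : a ∈ Q₁
    · by_cases h2 : b ∈ Q₁
      · simp only [h1, h2, if_true]
        exact c₁ a h1 b h2 hab
      · simp only [h1, h2, if_true, if_false]
        have := a₁ a h1
        omega
    · have h1' : a ∈ Q₂ := (Finset.mem_union.mp ha).resolve_left h1
      by_cases h2 : b ∈ Q₁
      · exact absurd hab (hr a h1' b h2)
      · have h2' : b ∈ Q₂ := (Finset.mem_union.mp hb).resolve_left h2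
        simp only [h1, h2, if_false]
        have := c₂ a h1' b h2' hab
        omega

/-! ### Basic facts on heights and the sets of the rule system -/

theorem steps_mono_left (r : Fin n → Fin n → Prop) :
    ∀ (k j : ℕ) (v : Fin n), j ≤ k → Steps r k v → Steps r j v := by
  intro k
  induction k with
  | zero =>
    intro j v hj h
    have : j = 0 := by omega
    subst this
    exact h
  | succ k ih =>
    intro j v hj h
    rcases j with _ | j
    · trivial
    · obtain ⟨u, hu, hu'⟩ := h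
      exact ⟨u, hu, ih j u (by omega) hu'⟩

theorem steps_chain (r : Fin n → Fin n → Prop) :
    ∀ (k : ℕ) (v : Fin n), Steps r k v → ∃ z : ℕ → Fin n, z 0 = v ∧ ∀ j < k, r (z j) (z (j + 1)) := by
  intro k
  induction k with
  | zero =>
    intro v _
    exact ⟨fun _ => v, rfl, by intro j hj; exact absurd hj (Nat.not_lt_zero _)⟩
  | succ k ih =>
    intro v h
    obtain ⟨u, hu, hu'⟩ := h
    obtain ⟨z, hz0, hz⟩ := ih u hu'
    refine ⟨fun j => if j = 0 then v else z (j - 1), by simp, ?_⟩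
    intro j hj
    rcases j with _ | j
    · simp only [if_true, zero_add, Nat.one_ne_zero, if_false, Nat.sub_self, hz0]
      exact hu
    · have h1 : (j + 1 = 0) = False := by simp
      have h2 : (j + 1 + 1 = 0) = False := by simp
      simp only [h1, h2, if_false, Nat.add_sub_cancel]
      exact hz j (by omega)

theorem steps_lt (r : Fin n → Fin n → Prop) (hr : IsStrictOrder (Fin n) r) (k : ℕ) (v : Fin n)
    (h : Steps r k v) : k < n := by
  obtain ⟨z, _, hz⟩ := steps_chain r k v h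
  have hlt : ∀ j, j ≤ k → ∀ i, i < j → r (z i) (z j) := by
    intro j
    induction j with
    | zero =>
      intro _ i hi
      exact absurd hi (Nat.not_lt_zero _)
    | succ j ih =>
      intro hj i hi
      rcases Nat.lt_or_ge i j with h1 | h1
      · exact hr.trans _ _ _ (ih (by omega) i h1) (hz j (by omega))
      · have : i = j := by omega
        subst this
        exact hz i (by omega)
  have hinj : Function.Injective (fun j : Fin (k + 1) => z j.1) := by
    intro a b hab
    by_contra hne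
    rcases lt_or_gt_of_ne (fun h => hne (Fin.ext h) : a.1 ≠ b.1) with h1 | h1
    · have := hlt b.1 (by omega) a.1 h1
      simp only at hab
      rw [hab] at this
      exact hr.irrefl _ this
    · have := hlt a.1 (by omega) b.1 h1
      simp only at hab
      rw [hab] at this
      exact hr.irrefl _ this
  have := Fintype.card_le_of_injective _ hinj
  simp only [Fintype.card_fin] at this
  omega

theorem steps_ht (r : Fin n → Fin n → Prop) (v : Fin n) : Steps r (ht r v) v := by
  have h0 : Steps r 0 v := trivial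
  exact Nat.findGreatest_spec (P := fun k => Steps r k v) (Nat.zero_le n) h0

theorem le_ht (r : Fin n → Fin n → Prop) (hr : IsStrictOrder (Fin n) r) (k : ℕ) (v : Fin n)
    (h : Steps r k v) : k ≤ ht r v :=
  Nat.le_findGreatest (P := fun k => Steps r k v) (steps_lt r hr k v h).le h

theorem ht_lt (r : Fin n → Fin n → Prop) (hr : IsStrictOrder (Fin n) r) (v : Fin n) :
    ht r v < n :=
  steps_lt r hr _ v (steps_ht r v)

theorem ht_lt_of_rel (r : Fin n → Fin n → Prop) (hr : IsStrictOrder (Fin n) r) {a b : Fin n}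
    (h : r a b) : ht r b < ht r a :=
  le_ht r hr (ht r b + 1) a ⟨b, h, steps_ht r b⟩

theorem ht_twin (r : Fin n → Fin n → Prop) {a b : Fin n} (h : Twin r a b) :
    ht r a = ht r b := by
  have key : ∀ (a b : Fin n), Twin r a b → ∀ k, Steps r k a → Steps r k b := by
    intro a b h k hk
    rcases k with _ | k
    · trivial
    · obtain ⟨u, hu, hu'⟩ := hk
      exact ⟨u, (h u).2.mp hu, hu'⟩
  have hs : Twin r b a := fun u => ⟨(h u).1.symm, (h u).2.symm⟩
  unfold ht
  congr 1
  funext k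
  exact propext ⟨key a b h k, key b a hs k⟩

theorem twin_refl (r : Fin n → Fin n → Prop) (a : Fin n) : Twin r a a :=
  fun _ => ⟨Iff.rfl, Iff.rfl⟩

theorem mem_up (r : Fin n → Fin n → Prop) (V : Finset (Fin n)) (u : Fin n) :
    u ∈ up r V ↔ ∃ v ∈ V, ∃ x ∈ suf r v, x = u ∨ r x u := by
  simp [up]

theorem up_closed (r : Fin n → Fin n → Prop) (hr : IsStrictOrder (Fin n) r)
    (V : Finset (Fin n)) {a b : Fin n} (ha : a ∈ up r V) (h : r a b) : b ∈ up r V := by
  rw [mem_up] at ha ⊢
  obtain ⟨v, hv, x, hx, hxa⟩ := ha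
  refine ⟨v, hv, x, hx, Or.inr ?_⟩
  rcases hxa with rfl | hxa
  · exact h
  · exact hr.trans _ _ _ hxa h

theorem mem_bef (r : Fin n → Fin n → Prop) (l : ℕ) (V : Finset (Fin n)) (u : Fin n) :
    u ∈ bef r l V ↔ u ∈ up r V ∧ l ≤ ht r u := by
  simp [bef]

theorem mem_aft (r : Fin n → Fin n → Prop) (l : ℕ) (V Z : Finset (Fin n)) (u : Fin n) :
    u ∈ aft r l V Z ↔ (u ∈ up r V ∧ l ≤ ht r u) ∧ u ∉ Z := by
  simp [aft, mem_bef]

theorem mem_Bset (r : Fin n → Fin n → Prop) (l : ℕ) (V Z Y : Finset (Fin n)) (u : Fin n) :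
    u ∈ Bset r l V Z Y ↔ (u ∈ up r V ∧ u ∉ Z ∧ u ∉ up r Y) ∧ ht r u = l := by
  simp only [Bset, mem_filter, mem_sdiff, mem_aft, mem_bef]
  constructor
  · rintro ⟨⟨⟨⟨h1, h2⟩, h3⟩, h4⟩, h5⟩
    exact ⟨⟨h1, h3, fun h => h4 ⟨h, h2⟩⟩, h5⟩
  · rintro ⟨⟨h1, h3, h4⟩, h5⟩
    exact ⟨⟨⟨⟨h1, h5.ge⟩, h3⟩, fun h => h4 h.1⟩, h5⟩

theorem up_subset (r : Fin n → Fin n → Prop) (hr : IsStrictOrder (Fin n) r) (l : ℕ)
    (V V' : Finset (Fin n)) (hV' : ∀ v ∈ V', l ≤ ht r v) (h : bef r l V' ⊆ up r V) :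
    up r V' ⊆ up r V := by
  intro u hu
  rw [mem_up] at hu
  obtain ⟨v, hv, x, hx, hxu⟩ := hu
  have hx' : x ∈ bef r l V' := by
    rw [mem_bef, mem_up]
    refine ⟨⟨v, hv, x, hx, Or.inl rfl⟩, ?_⟩
    have : Twin r v x := (by simpa [suf] using hx : Twin r v x ∧ v ≤ x).1
    rw [← ht_twin r this]
    exact hV' v hv
  rcases hxu with rfl | hxu
  · exact h hx'
  · exact up_closed r hr V (h hx') hxu

/-! ### The invariant -/

/-- The meaning of a fact. -/
def Meaning (r : Fin n → Fin n → Prop) (m : ℕ) : Fact n → Prop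
  | Fact.A l V Z Y => bef r l Y ⊆ aft r l V Z ∧ Perf r m (aft r l V Z \ bef r l Y)
  | Fact.P l V Z Y V' Z' b =>
      aft r (l + 1) V' Z' ⊆ aft r (l + 1) V Z ∧ (∀ v ∈ V', l + 1 ≤ ht r v) ∧
      (∀ z ∈ Z', z ∈ bef r (l + 1) V' ∧ ∀ u ∈ bef r (l + 1) V', ¬ r u z) ∧
      ∃ Bu : Finset (Fin n), Bu ⊆ Bset r l V Z Y ∧ Bu.card = b ∧ (∀ v ∈ Bu, v ∉ up r V') ∧
        Perf r m ((aft r (l + 1) V Z \ aft r (l + 1) V' Z') ∪ Bu)

/-- One further special slot. -/
theorem add_slot (r : Fin n → Fin n → Prop) (hr : IsStrictOrder (Fin n) r) (m c l : ℕ)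
    (V Z Y V' Z' : Finset (Fin n)) (b : ℕ) (Q Bu : Finset (Fin n))
    (hs : Slot r m c l V Z Y V' Z' (b + (m - Z'.card)))
    (hV' : bef r (l + 1) V' ⊆ aft r (l + 1) V Z)
    (hBu : Bu ⊆ Bset r l V Z Y) (hb : Bu.card = b) (hBV : ∀ v ∈ Bu, v ∉ up r V')
    (hQ : Q = (aft r (l + 1) V Z \ bef r (l + 1) V') ∪ Bu) (hP : Perf r m Q) :
    ∃ Bu' : Finset (Fin n), Bu' ⊆ Bset r l V Z Y ∧ Bu'.card = b + (m - Z'.card) ∧
      (∀ v ∈ Bu', v ∉ up r V') ∧
      Perf r m ((aft r (l + 1) V Z \ aft r (l + 1) V' Z') ∪ Bu') := by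
  obtain ⟨_, _, hZ', hlev, hmin, hcount⟩ := hs
  have hsub : Bu ⊆ Bset r l V Z Y \ up r V' := by
    intro v hv
    exact Finset.mem_sdiff.mpr ⟨hBu hv, hBV v hv⟩
  obtain ⟨Bn, hBn, hBncard⟩ : ∃ Bn ⊆ (Bset r l V Z Y \ up r V') \ Bu, Bn.card = m - Z'.card := by
    apply Finset.exists_subset_card_eq
    rw [Finset.card_sdiff_of_subset hsub]
    omega
  have hBn1 : ∀ v ∈ Bn, v ∈ Bset r l V Z Y ∧ v ∉ up r V' ∧ v ∉ Bu := by
    intro v hv
    have := hBn hv
    simp only [mem_sdiff] at this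
    exact ⟨this.1.1, this.1.2, this.2⟩
  have hhB : ∀ v ∈ Bset r l V Z Y, ht r v = l := fun v hv => ((mem_Bset r l V Z Y v).mp hv).2
  have hslot : Perf r m (Z' ∪ Bn) := by
    apply perf_slot
    · rw [Finset.card_union_of_disjoint, hBncard]
      · omega
      · rw [Finset.disjoint_left]
        intro v hv hv'
        exact (hBn1 v hv').2.1 ((mem_bef r _ _ _).mp (hmin v hv).1).1
    · intro a ha b' hb' hab
      rcases Finset.mem_union.mp hb' with h2 | h2
      · rcases Finset.mem_union.mp ha with h1 | h1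
        · exact (hmin b' h2).2 a (hmin a h1).1 hab
        · have e1 := hhB a (hBn1 a h1).1
          have e2 := ((mem_bef r _ _ _).mp (hmin b' h2).1).2
          have := ht_lt_of_rel r hr hab
          omega
      · rcases Finset.mem_union.mp ha with h1 | h1
        · exact (hBn1 b' h2).2.1 (up_closed r hr V' ((mem_bef r _ _ _).mp (hmin a h1).1).1 hab)
        · have e1 := hhB a (hBn1 a h1).1
          have e2 := hhB b' (hBn1 b' h2).1
          have := ht_lt_of_rel r hr hab
          omega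
  refine ⟨Bu ∪ Bn, ?_, ?_, ?_, ?_⟩
  · intro v hv
    rcases Finset.mem_union.mp hv with h | h
    · exact hBu h
    · exact (hBn1 v h).1
  · rw [Finset.card_union_of_disjoint, hb, hBncard]
    rw [Finset.disjoint_left]
    intro v hv hv'
    exact (hBn1 v hv').2.2 hv
  · intro v hv
    rcases Finset.mem_union.mp hv with h | h
    · exact hBV v h
    · exact (hBn1 v h).2.1
  · have heq : (aft r (l + 1) V Z \ aft r (l + 1) V' Z') ∪ (Bu ∪ Bn) = Q ∪ (Z' ∪ Bn) := by
      rw [hQ]
      ext v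
      simp only [mem_union, mem_sdiff, mem_aft, mem_bef]
      constructor
      · rintro (⟨h1, h2⟩ | h | h)
        · by_cases hz : v ∈ Z'
          · exact Or.inr (Or.inl hz)
          · refine Or.inl (Or.inl ⟨h1, fun h3 => h2 ⟨h3, hz⟩⟩)
        · exact Or.inl (Or.inr h)
        · exact Or.inr (Or.inr h)
      · rintro ((⟨h1, h2⟩ | h) | h | h)
        · exact Or.inl ⟨h1, fun h3 => h2 h3.1⟩
        · exact Or.inr (Or.inl h)
        · left
          have h4 := (mem_aft r _ _ _ _).mp (hV' (hmin v h).1)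
          exact ⟨h4, fun h5 => h5.2 h⟩
        · exact Or.inr (Or.inr h)
    rw [heq]
    apply perf_union r m _ _ _ hP hslot
    · intro a ha b' hb' hab
      rw [hQ] at hb'
      simp only [mem_union, mem_sdiff, mem_aft, mem_bef] at hb'
      rcases Finset.mem_union.mp ha with h1 | h1
      · have e1 := (mem_bef r _ _ _).mp (hmin a h1).1
        have e2 := up_closed r hr V' e1.1 hab
        rcases hb' with ⟨h2, h3⟩ | h2
        · exact h3 ⟨e2, h2.1.2⟩
        · exact hBV b' h2 e2
      · have e1 := hhB a (hBn1 a h1).1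
        have e3 := ht_lt_of_rel r hr hab
        rcases hb' with ⟨h2, _⟩ | h2
        · omega
        · have := hhB b' (hBu h2)
          omega
    · rw [Finset.disjoint_left]
      intro v hv hv'
      rw [hQ] at hv
      simp only [mem_union, mem_sdiff, mem_aft, mem_bef] at hv
      rcases Finset.mem_union.mp hv' with h1 | h1
      · have e1 := (mem_bef r _ _ _).mp (hmin v h1).1
        rcases hv with ⟨_, h3⟩ | h2
        · exact h3 e1
        · exact hBV v h2 e1.1
      · rcases hv with ⟨h2, _⟩ | h2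
        · have := hhB v (hBn1 v h1).1
          omega
        · exact (hBn1 v h1).2.2 h2

/-- Soundness of the rule system. -/
theorem sound (r : Fin n → Fin n → Prop) (hr : IsStrictOrder (Fin n) r) (m c : ℕ)
    (f : Fact n) (h : Der r m c f) : Meaning r m f := by
  induction h with
  | base V Z Y hs hY =>
    have h0 : ∀ X : Finset (Fin n), bef r n X = ∅ := by
      intro X
      ext v
      simp only [mem_bef, Finset.notMem_empty, iff_false, not_and]
      intro _
      have := ht_lt r hr v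
      omega
    have h1 : ∀ X X' : Finset (Fin n), aft r n X X' = ∅ := by
      intro X X'
      simp [aft, h0]
    refine ⟨by rw [h0]; exact Finset.empty_subset _, ?_⟩
    rw [h0, h1]
    simpa using perf_empty r m
  | skip l V Z Y _ hn hB ih =>
    refine ⟨hn, ?_⟩
    have heq : aft r l V Z \ bef r l Y = aft r (l + 1) V Z \ bef r (l + 1) Y := by
      ext v
      simp only [mem_sdiff, mem_aft, mem_bef]
      constructor
      · rintro ⟨⟨⟨h1, h2⟩, h3⟩, h4⟩
        have h5 : ht r v ≠ l := by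
          intro h5
          have : v ∈ Bset r l V Z Y := by
            rw [mem_Bset]
            exact ⟨⟨h1, h3, fun h => h4 ⟨h, h2⟩⟩, h5⟩
          rw [Finset.card_eq_zero] at hB
          rw [hB] at this
          simp at this
        have h6 : l + 1 ≤ ht r v := by omega
        exact ⟨⟨⟨h1, h6⟩, h3⟩, fun h => h4 ⟨h.1, h2⟩⟩
      · rintro ⟨⟨⟨h1, h2⟩, h3⟩, h4⟩
        exact ⟨⟨⟨h1, by omega⟩, h3⟩, fun h => h4 ⟨h.1, h2⟩⟩
    rw [heq]
    exact ih.2
  | first l V Z Y V' Z' _ hs ih =>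
    obtain ⟨ih1, ih2⟩ := ih
    have hs0 := hs
    obtain ⟨_, _, _, hlev, hmin, _⟩ := hs0
    have hs' : Slot r m c l V Z Y V' Z' (0 + (m - Z'.card)) := by
      rw [Nat.zero_add]
      exact hs
    obtain ⟨Bu, h1, h2, h3, h4⟩ := add_slot r hr m c l V Z Y V' Z' 0
      (aft r (l + 1) V Z \ bef r (l + 1) V') ∅ hs' ih1 (Finset.empty_subset _) rfl
      (by simp) (by simp) ih2
    refine ⟨?_, hlev, hmin, Bu, h1, by omega, h3, h4⟩
    intro v hv
    apply ih1
    rw [mem_aft] at hv
    rw [mem_bef]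
    exact hv.1
  | next l V Z Y V₁ Z₁ V' Z' b _ _ hs ih ih' =>
    obtain ⟨i1, i2, i3, Bu, i4, i5, i6, i7⟩ := ih
    obtain ⟨j1, j2⟩ := ih'
    have hs0 := hs
    obtain ⟨_, _, _, hlev, hmin, _⟩ := hs0
    have hup : up r V' ⊆ up r V₁ := by
      apply up_subset r hr (l + 1) V₁ V' hlev
      intro v hv
      exact ((mem_aft r _ _ _ _).mp (j1 hv)).1.1
    have hBV : ∀ v ∈ Bu, v ∉ up r V' := fun v hv h => i6 v hv (hup h)
    have hhB : ∀ v ∈ Bset r l V Z Y, ht r v = l := fun v hv => ((mem_Bset r l V Z Y v).mp hv).2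
    have hP : Perf r m ((aft r (l + 1) V Z \ bef r (l + 1) V') ∪ Bu) := by
      have heq : (aft r (l + 1) V Z \ bef r (l + 1) V') ∪ Bu =
          ((aft r (l + 1) V Z \ aft r (l + 1) V₁ Z₁) ∪ Bu) ∪
            (aft r (l + 1) V₁ Z₁ \ bef r (l + 1) V') := by
        ext v
        simp only [mem_union, mem_sdiff]
        constructor
        · rintro (⟨h1, h2⟩ | h)
          · by_cases h3 : v ∈ aft r (l + 1) V₁ Z₁
            · exact Or.inr ⟨h3, h2⟩
            · exact Or.inl (Or.inl ⟨h1, h3⟩)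
          · exact Or.inl (Or.inr h)
        · rintro ((⟨h1, h2⟩ | h) | ⟨h1, h2⟩)
          · exact Or.inl ⟨h1, fun h => h2 (j1 h)⟩
          · exact Or.inr h
          · exact Or.inl ⟨i1 h1, h2⟩
      rw [heq]
      apply perf_union r m _ _ _ i7 j2
      · intro a ha b' hb' hab
        rw [mem_sdiff, mem_aft] at ha
        have e1 := up_closed r hr V₁ ha.1.1.1 hab
        rcases Finset.mem_union.mp hb' with h | h
        · rw [mem_sdiff, mem_aft] at h
          have e2 : b' ∈ Z₁ := by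
            by_contra hz
            exact h.2 ((mem_aft r _ _ _ _).mpr ⟨⟨e1, h.1.1.2⟩, hz⟩)
          exact (i3 b' e2).2 a ((mem_bef r _ _ _).mpr ha.1.1) hab
        · exact i6 b' h e1
      · rw [Finset.disjoint_left]
        intro v hv hv'
        rw [mem_sdiff] at hv'
        rcases Finset.mem_union.mp hv with h | h
        · rw [mem_sdiff] at h
          exact h.2 hv'.1
        · have := hhB v (i4 h)
          have e := ((mem_aft r _ _ _ _).mp hv'.1).1.2
          omega
    obtain ⟨Bu', h1, h2, h3, h4⟩ := add_slot r hr m c l V Z Y V' Z' b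
      ((aft r (l + 1) V Z \ bef r (l + 1) V') ∪ Bu) Bu hs (fun v hv => i1 (j1 hv)) i4 i5 hBV rfl hP
    refine ⟨?_, hlev, hmin, Bu', h1, h2, h3, h4⟩
    intro v hv
    apply i1
    apply j1
    rw [mem_aft] at hv
    rw [mem_bef]
    exact hv.1
  | fin l V Z Y V₁ Z₁ b _ _ hn hb ih ih' =>
    obtain ⟨i1, i2, i3, Bu, i4, i5, i6, i7⟩ := ih
    obtain ⟨j1, j2⟩ := ih'
    refine ⟨hn, ?_⟩
    have hBu : Bu = Bset r l V Z Y := Finset.eq_of_subset_of_card_le i4 (by omega)
    have hhB : ∀ v ∈ Bset r l V Z Y, ht r v = l := fun v hv => ((mem_Bset r l V Z Y v).mp hv).2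
    have heq : aft r l V Z \ bef r l Y =
        ((aft r (l + 1) V Z \ aft r (l + 1) V₁ Z₁) ∪ Bu) ∪
          (aft r (l + 1) V₁ Z₁ \ bef r (l + 1) Y) := by
      ext v
      rw [hBu]
      constructor
      · intro hv
        rw [mem_sdiff, mem_aft, mem_bef] at hv
        obtain ⟨⟨⟨h1, h2⟩, h3⟩, h4⟩ := hv
        by_cases h5 : ht r v = l
        · apply Finset.mem_union_left
          apply Finset.mem_union_right
          rw [mem_Bset]
          exact ⟨⟨h1, h3, fun h => h4 ⟨h, h2⟩⟩, h5⟩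
        · have h6 : l + 1 ≤ ht r v := by omega
          by_cases h7 : v ∈ aft r (l + 1) V₁ Z₁
          · apply Finset.mem_union_right
            rw [mem_sdiff, mem_bef]
            exact ⟨h7, fun h => h4 ⟨h.1, h2⟩⟩
          · apply Finset.mem_union_left
            apply Finset.mem_union_left
            rw [mem_sdiff, mem_aft]
            exact ⟨⟨⟨h1, h6⟩, h3⟩, h7⟩
      · intro hv
        rw [mem_sdiff, mem_aft, mem_bef]
        rcases Finset.mem_union.mp hv with hv | hv
        · rcases Finset.mem_union.mp hv with hv | hv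
          · rw [mem_sdiff, mem_aft] at hv
            obtain ⟨⟨⟨h1, h2⟩, h3⟩, h4⟩ := hv
            refine ⟨⟨⟨h1, by omega⟩, h3⟩, fun h => h4 (j1 ((mem_bef r _ _ _).mpr ⟨h.1, h2⟩))⟩
          · rw [mem_Bset] at hv
            obtain ⟨⟨h1, h2, h3⟩, h4⟩ := hv
            exact ⟨⟨⟨h1, h4.ge⟩, h2⟩, fun h => h3 h.1⟩
        · rw [mem_sdiff, mem_bef] at hv
          have h1 := (mem_aft r _ _ _ _).mp (i1 hv.1)
          refine ⟨⟨⟨h1.1.1, by omega⟩, h1.2⟩, fun h => hv.2 ⟨h.1, h1.1.2⟩⟩
    rw [heq]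
    apply perf_union r m _ _ _ i7 j2
    · intro a ha b' hb' hab
      rw [mem_sdiff, mem_aft] at ha
      have e1 := up_closed r hr V₁ ha.1.1.1 hab
      rcases Finset.mem_union.mp hb' with h | h
      · rw [mem_sdiff, mem_aft] at h
        have e2 : b' ∈ Z₁ := by
          by_contra hz
          exact h.2 ((mem_aft r _ _ _ _).mpr ⟨⟨e1, h.1.1.2⟩, hz⟩)
        exact (i3 b' e2).2 a ((mem_bef r _ _ _).mpr ha.1.1) hab
      · exact i6 b' h e1
    · rw [Finset.disjoint_left]
      intro v hv hv'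
      rw [mem_sdiff] at hv'
      rcases Finset.mem_union.mp hv with h | h
      · rw [mem_sdiff] at h
        exact h.2 hv'.1
      · have := hhB v (i4 h)
        have e := ((mem_aft r _ _ _ _).mp hv'.1).1.2
        omega

end Helper58SC
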